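import Mathlib.Data.List.Chain
import Mathlib.Data.Fin.Basic
import Mathlib.Data.ZMod.Defs
import Mathlib.Tactic

/-!
# A stack machine with values in the group of order six

The functional used for the colouring: the digits of a number are processed from left to right,
with a stack of gaps, labelled by the least element that is enumerated in the gap.
-/

set_option autoImplicit false

namespace Pool.Agent.Helper32.HT

/-! ### the group of order six -/

/-- The group of order six: pairs (rotation, reflection bit). -/
abbrev G : Type := Fin 3 × Bool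

/-- The multiplication. -/
def mul (g h : G) : G := (g.1 + (if g.2 then -h.1 else h.1), xor g.2 h.2)

/-- The two letters. -/
def x (b : Bool) : G := if b then (1, false) else (0, true)

/-- The inverse of `x false`. -/
def x0i : G := (0, true)

/-- The inverse. -/
def inv (g : G) : G := (if g.2 then g.1 else -g.1, g.2)

/-- A function which is constant exactly on the cosets of the subgroup generated by
`(x false)⁻¹ (x true)`. -/
def tau (g : G) : Fin 3 := if g.2 then -g.1 - 1 else g.1

/-- The weight of a change of the value from `h` to `g`. -/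
def tau2 (g h : G) : Fin 3 := tau (mul (inv g) h)

lemma mul_assoc' : ∀ a b c : G, mul (mul a b) c = mul a (mul b c) := by decide

lemma tau2_left : ∀ k g h : G, tau2 (mul k g) (mul k h) = tau2 g h := by decide

lemma tau2_bot : ∀ (Q : G) (b b' : Bool) (P : G),
    tau2 (mul Q (x b')) (mul (mul (mul Q (x b)) x0i) P) = tau2 (x false) P := by decide

lemma tau2_first : ∀ (Q : G) (b' : Bool), tau2 (mul Q (x b')) Q = tau2 (x false) (0, false) := by
  decide

lemma one_mul' : ∀ g : G, mul (0, false) g = g := by decide

lemma mul_x0 : ∀ (Q : G) (b : Bool), mul Q (x b) = mul (mul (mul Q (x b)) x0i) (x false) := by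
  decide

lemma tau_inj : ∀ (Q Q' : G) (b b' : Bool) (g : G),
    tau2 Q (mul (mul (mul Q (x b)) x0i) g) = tau2 Q' (mul (mul (mul Q' (x b')) x0i) g) →
      b = b' := by
  decide

/-! ### the machine -/

/-- Entries of the stack: label, left end, right end, value. -/
abbrev Ent : Type := ℕ × ℕ × ℕ × G

/-- States: last element, stack (top first), sum of the weights. -/
abbrev St : Type := ℕ × List Ent × Fin 3

/-- The value of the top entry. -/
def topP (st : List Ent) : G := (st.head?.map (fun e => e.2.2.2)).getD (0, false)

/-- The letter of a new entry. -/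
def lett (ell : ℕ → ℕ → ℕ → Bool) (st : List Ent) (v b : ℕ) : Bool :=
  (st.head?.map (fun e => ell e.2.1 v b)).getD false

/-- Removal of the entries with labels at least `v`. -/
def pop (v : ℕ) (st : List Ent) : List Ent := st.filter (fun e => decide (e.1 < v))

/-- The label of the gap `(a, b]`. -/
def lb (W : ℕ → ℕ → Bool) (a b : ℕ) : ℕ :=
  ((List.range a).find? (fun u => W b u && !W a u)).getD a

/-- One step of the machine. -/
def step (W : ℕ → ℕ → Bool) (ell : ℕ → ℕ → ℕ → Bool) (S : St) (b : ℕ) : St :=
  (b, (lb W S.1 b, S.1, b,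
      mul (topP (pop (lb W S.1 b) S.2.1))
        (x (lett ell (pop (lb W S.1 b) S.2.1) (lb W S.1 b) b))) :: pop (lb W S.1 b) S.2.1,
    S.2.2 + tau2 (mul (topP (pop (lb W S.1 b) S.2.1))
        (x (lett ell (pop (lb W S.1 b) S.2.1) (lb W S.1 b) b))) (topP S.2.1))

/-- The state after the list `d :: r`. -/
def run (W : ℕ → ℕ → Bool) (ell : ℕ → ℕ → ℕ → Bool) (D : List ℕ) : St :=
  D.tail.foldl (step W ell) (D.headD 0, [], 0)

/-- The colour of a list. -/
def cl (W : ℕ → ℕ → Bool) (ell : ℕ → ℕ → ℕ → Bool) (D : List ℕ) : G × Fin 3 :=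
  (topP (run W ell D).2.1, (run W ell D).2.2)

variable {W : ℕ → ℕ → Bool} {ell : ℕ → ℕ → ℕ → Bool}

lemma run_append {D : List ℕ} (hD : D ≠ []) (E : List ℕ) :
    run W ell (D ++ E) = E.foldl (step W ell) (run W ell D) := by
  obtain ⟨d, r, rfl⟩ := List.exists_cons_of_ne_nil hD
  simp [run]

lemma step_fst (S : St) (b : ℕ) : (step W ell S b).1 = b := rfl

lemma foldl_fst (E : List ℕ) (S : St) :
    (E.foldl (step W ell) S).1 = E.getLastD S.1 := by
  induction E generalizing S with
  | nil => rfl
  | cons b E ih =>
    rw [List.foldl_cons, ih, step_fst, List.getLastD_cons]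

lemma run_fst {D : List ℕ} (hD : D ≠ []) : (run W ell D).1 = D.getLast hD := by
  obtain ⟨d, r, rfl⟩ := List.exists_cons_of_ne_nil hD
  rw [run, foldl_fst]
  cases r with
  | nil => simp
  | cons b r =>
    rw [List.getLast_cons (by simp : b :: r ≠ [])]
    simp [List.getLastD_eq_getLast?, List.getLast?_eq_some_getLast]

/-! ### context -/

/-- The change of an entry in a context. -/
def tr (k : G) (e : Ent) : Ent := (e.1, e.2.1, e.2.2.1, mul k e.2.2.2)

/-- The relation between the stack alone and the stack in a context with stack `base`, whose top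
entry has left end `a0` and value `Q`. -/
def Rel (ell : ℕ → ℕ → ℕ → Bool) (base : List Ent) (a0 : ℕ) (Q : G) (st st' : List Ent) : Prop :=
  ∃ k : G, st' = st.map (tr k) ++ base ∧
    ∀ e ∈ st.getLast?, k = mul (mul Q (x (ell a0 e.1 e.2.2.1))) x0i

lemma pop_map (v : ℕ) (k : G) (st : List Ent) : pop v (st.map (tr k)) = (pop v st).map (tr k) := by
  unfold pop
  rw [List.filter_map]
  rfl

lemma pop_append (v : ℕ) (st st' : List Ent) : pop v (st ++ st') = pop v st ++ pop v st' := by
  unfold pop
  rw [List.filter_append]

lemma pop_eq {v : ℕ} {st : List Ent} (h : ∀ e ∈ st, e.1 < v) : pop v st = st := by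
  unfold pop
  rw [List.filter_eq_self]
  intro e he
  simpa using h e he

lemma mem_pop {v : ℕ} {st : List Ent} {e : Ent} : e ∈ pop v st ↔ e ∈ st ∧ e.1 < v := by
  unfold pop
  simp

/-- All labels along the list are larger than `M`. -/
def Lab (W : ℕ → ℕ → Bool) (M : ℕ) : ℕ → List ℕ → Prop
  | _, [] => True
  | a, b :: r => M < lb W a b ∧ Lab W M b r

lemma topP_map (k : G) (st base : List Ent) (h : st ≠ []) :
    topP (st.map (tr k) ++ base) = mul k (topP st) := by
  obtain ⟨e, r, rfl⟩ := List.exists_cons_of_ne_nil h
  rfl

lemma lett_map (k : G) (st base : List Ent) (h : st ≠ []) (v b : ℕ) :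
    lett ell (st.map (tr k) ++ base) v b = lett ell st v b := by
  obtain ⟨e, r, rfl⟩ := List.exists_cons_of_ne_nil h
  rfl

/-- The labels decrease from the top to the bottom. -/
def Srt (st : List Ent) : Prop := st.Pairwise (fun e e' => e'.1 < e.1)

lemma srt_step (S : St) (b : ℕ) (h : Srt S.2.1) : Srt (step W ell S b).2.1 := by
  simp only [step, Srt]
  rw [List.pairwise_cons]
  refine ⟨?_, ?_⟩
  · intro e he
    exact (mem_pop.1 he).2
  · exact h.filter _

lemma srt_foldl (E : List ℕ) (S : St) (h : Srt S.2.1) :
    Srt (E.foldl (step W ell) S).2.1 := by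
  induction E generalizing S with
  | nil => exact h
  | cons b E ih => exact ih _ (srt_step S b h)

lemma srt_run (D : List ℕ) : Srt (run W ell D).2.1 := srt_foldl _ _ List.Pairwise.nil

lemma getLast_pop {v : ℕ} {st : List Ent} (hs : Srt st) (hne : pop v st ≠ []) :
    (pop v st).getLast? = st.getLast? := by
  have hst : st ≠ [] := by
    rintro rfl
    exact hne rfl
  have hsplit := List.dropLast_append_getLast hst
  have hs2 : Srt (st.dropLast ++ [st.getLast hst]) := by rw [hsplit]; exact hs
  rw [Srt, List.pairwise_append] at hs2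
  by_cases hl : (st.getLast hst).1 < v
  · have h1 : pop v st = pop v st.dropLast ++ [st.getLast hst] := by
      conv_lhs => rw [← hsplit]
      rw [pop_append]
      congr 1
      exact pop_eq (by simpa using hl)
    rw [h1, List.getLast?_append, List.getLast?_singleton, List.getLast?_eq_some_getLast hst]
    rfl
  · exfalso
    apply hne
    rw [List.eq_nil_iff_forall_not_mem]
    intro e he
    obtain ⟨he1, he2⟩ := mem_pop.1 he
    rw [← hsplit, List.mem_append] at he1
    rcases he1 with he1 | he1
    · have := hs2.2.2 e he1 _ (List.mem_singleton.2 rfl)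
      omega
    · rw [List.mem_singleton] at he1
      rw [he1] at he2
      exact hl he2

/-- One step in a context. -/
lemma step_ctx {base : List Ent} {M a0 b0 : ℕ} {Q : G} {low : List Ent}
    (hbase : base = (M, a0, b0, Q) :: low) (hlow : ∀ e ∈ base, e.1 ≤ M) {T0 : Fin 3}
    {A C : St} (h1 : C.1 = A.1) (h2 : C.2.2 = T0 + A.2.2)
    (h3 : Rel ell base a0 Q A.2.1 C.2.1) (hs : Srt A.2.1) {b : ℕ} (hM : M < lb W A.1 b) :
    (step W ell C b).1 = (step W ell A b).1 ∧
      (step W ell C b).2.2 = T0 + (step W ell A b).2.2 ∧
      Rel ell base a0 Q (step W ell A b).2.1 (step W ell C b).2.1 := by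
  obtain ⟨k, hk, hbot⟩ := h3
  obtain ⟨a, st, T⟩ := A
  obtain ⟨a', st', T'⟩ := C
  simp only at h1 h2 hk hbot hM
  subst h1 h2 hk
  set v := lb W a' b with hv
  have hpb : pop v base = base := pop_eq fun e he => lt_of_le_of_lt (hlow e he) hM
  have hpop : pop v (st.map (tr k) ++ base) = (pop v st).map (tr k) ++ base := by
    rw [pop_append, pop_map, hpb]
  have htopb : topP base = Q := by rw [hbase]; rfl
  have hletb : ∀ v b, lett ell base v b = ell a0 v b := by
    intro v b
    rw [hbase]; rfl
  refine ⟨rfl, ?_, ?_⟩
  · -- weights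
    simp only [step]
    rw [← hv, hpop]
    by_cases hne : pop v st = []
    · rw [hne]
      simp only [List.map_nil, List.nil_append]
      rw [htopb, hletb]
      have e1 : lett ell ([] : List Ent) v b = false := rfl
      have e2 : topP ([] : List Ent) = (0, false) := rfl
      rw [e1, e2, one_mul', add_assoc]
      congr 2
      by_cases hst : st = []
      · subst hst
        simp only [List.map_nil, List.nil_append]
        rw [htopb, e2]
        exact tau2_first _ _
      · rw [topP_map _ _ _ hst]
        have hl := hbot (st.getLast hst) (by rw [List.getLast?_eq_some_getLast hst]; rfl)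
        rw [hl]
        exact tau2_bot _ _ _ _
    · have hst : st ≠ [] := by
        rintro rfl
        exact hne rfl
      rw [topP_map _ _ _ hne, lett_map _ _ _ hne, topP_map _ _ _ hst, mul_assoc', tau2_left,
        add_assoc]
  · -- stacks
    simp only [step]
    rw [← hv, hpop]
    by_cases hne : pop v st = []
    · rw [hne]
      simp only [List.map_nil, List.nil_append]
      rw [htopb, hletb]
      have e1 : lett ell ([] : List Ent) v b = false := rfl
      have e2 : topP ([] : List Ent) = (0, false) := rfl
      rw [e1, e2, one_mul']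
      refine ⟨mul (mul Q (x (ell a0 v b))) x0i, ?_, ?_⟩
      · simp only [List.map_cons, List.map_nil, tr, List.cons_append, List.nil_append]
        rw [← mul_x0]
      · intro e he
        simp only [List.getLast?_singleton, Option.mem_def, Option.some.injEq] at he
        subst he
        rfl
    · refine ⟨k, ?_, ?_⟩
      · rw [topP_map _ _ _ hne, lett_map _ _ _ hne, mul_assoc']
        rfl
      · intro e he
        apply hbot
        rw [List.getLast?_cons_of_ne_nil hne, getLast_pop hs hne] at he
        exact he

/-- Exactness: a list with large labels in a context. -/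
lemma foldl_ctx {base : List Ent} {M a0 b0 : ℕ} {Q : G} {low : List Ent}
    (hbase : base = (M, a0, b0, Q) :: low) (hlow : ∀ e ∈ base, e.1 ≤ M) {T0 : Fin 3}
    (E : List ℕ) {A C : St} (h1 : C.1 = A.1) (h2 : C.2.2 = T0 + A.2.2)
    (h3 : Rel ell base a0 Q A.2.1 C.2.1) (hs : Srt A.2.1) (hM : Lab W M A.1 E) :
    (E.foldl (step W ell) C).2.2 = T0 + (E.foldl (step W ell) A).2.2 ∧
      Rel ell base a0 Q (E.foldl (step W ell) A).2.1 (E.foldl (step W ell) C).2.1 := by
  induction E generalizing A C with
  | nil => exact ⟨h2, h3⟩
  | cons b E ih =>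
    obtain ⟨g1, g2, g3⟩ := step_ctx hbase hlow h1 h2 h3 hs hM.1
    exact ih g1 g2 g3 (srt_step A b hs) hM.2

end Pool.Agent.Helper32.HT
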