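import Mathlib.Computability.PartrecCode
import Pool.Agent.Helper32.HT.Stack

/-!
# The colouring
-/

set_option autoImplicit false

namespace Pool.Agent.Helper32.HT

open Nat.Partrec

/-- Stage `t` of the enumeration: `u = (e, w)` is enumerated at stage `t` if the code `e` gives
the value `0` at some input `(w, d)`, `d < t`, in `t` steps. -/
def Wst (t u : ℕ) : Bool :=
  (List.range t).any fun d =>
    decide (Code.evaln t (Denumerable.ofNat Code u.unpair.1) (Nat.pair u.unpair.2 d) = some 0)

/-- The number of a question. -/
def qcode (e y a j c : ℕ) : ℕ := Nat.pair e (Nat.pair (Nat.pair y a) (Nat.pair j c))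

/-- The approximation with the knowledge below `w` at stage `b` of the statement: there is `c`
such that `(e, y, a, j, c)` is never enumerated. -/
def Oap (w b : ℕ) (e y a j : ℕ) : Bool :=
  (List.range w).any fun c => decide (qcode e y a j c < w) && !Wst b (qcode e y a j c)

/-- The positions of the binary digits one of `n`, in increasing order. -/
def dig (n : ℕ) : List ℕ := (List.range n).filter fun i => decide (n / 2 ^ i % 2 = 1)

/-- The finite set of a claim. -/
def cSet (z : ℕ) : List ℕ := dig z.unpair.1

/-- The witnesses of a claim. -/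
def cWit (z y : ℕ) : ℕ := (Denumerable.ofNat (List ℕ) z.unpair.2).getD y 0

/-- The sum of the finite set of a claim. -/
def cSum (z : ℕ) : ℕ := (cSet z).sum

/-- The first digit of the sum of a claim. -/
def cVal (z : ℕ) : ℕ := (dig (cSum z)).headD 0

/-- The last digit of the sum of a claim. -/
def cTop (z : ℕ) : ℕ := (dig (cSum z)).getLastD 0

/-- The claim `z` for the index `e` looks right at `v`. -/
def looks (O : ℕ → ℕ → ℕ → ℕ → Bool) (e v z : ℕ) : Bool :=
  decide (0 < cSum z) && (decide (cSum z < v) &&
    (cSet z).all fun y => (List.range v).all fun j => O e y (cWit z y) j)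

/-- The first claim for `e` which looks right at `v`, with a first digit different from those of
the claims in `l`. -/
def nextZ (O : ℕ → ℕ → ℕ → ℕ → Bool) (v e : ℕ) (l : List ℕ) : Option ℕ :=
  (List.range v).find? fun z => looks O e v z && l.all fun z' => decide (cVal z' ≠ cVal z)

/-- The claims chosen at `v` by the first indices. -/
def chosen (O : ℕ → ℕ → ℕ → ℕ → Bool) (v : ℕ) : ℕ → List ℕ
  | 0 => []
  | e + 1 => (nextZ O v e (chosen O v e)).toList ++ chosen O v e

/-- The claim which determines the bit at `(s, v)`. -/
def pick (O : ℕ → ℕ → ℕ → ℕ → Bool) (s v : ℕ) : Option ℕ :=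
  (chosen O v v).find? fun z => decide (cVal z = s)

/-- One step back. -/
def bstep (O : ℕ → ℕ → ℕ → ℕ → Bool) (s : ℕ) (q : ℕ × Bool) : ℕ × Bool :=
  ((pick O s q.1).map fun z => (cTop z, !q.2)).getD q

/-- The bit at `(s, v)`. -/
def Bf (O : ℕ → ℕ → ℕ → ℕ → Bool) (s v : ℕ) : Bool := ((bstep O s)^[v] (v, false)).2

/-- The letters for the threshold `s`. -/
def ell (s a v b : ℕ) : Bool := Bf (Oap v b) s a

/-- The number of a colour. -/
def enc (c : G × Fin 3) : ℕ := c.1.1.val + 3 * (if c.1.2 then 1 else 0) + 6 * c.2.val

/-- The colouring. -/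
def colour (n : ℕ) : ℕ := enc (cl Wst (ell ((dig n).headD 0)) (dig n))

lemma enc_lt : ∀ c : G × Fin 3, enc c < 18 := by decide

lemma enc_inj : ∀ c c' : G × Fin 3, enc c = enc c' → c = c' := by decide

end Pool.Agent.Helper32.HT
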