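import Mathlib.Data.List.Sort
import Mathlib.Data.Nat.Bitwise
import Pool.Agent.Helper32.HT.Defs

/-!
# Binary digits
-/

set_option autoImplicit false

namespace Pool.Agent.Helper32.HT

lemma mem_dig {n i : ℕ} : i ∈ dig n ↔ n.testBit i = true := by
  unfold dig
  rw [List.mem_filter, List.mem_range, ← Nat.testBit_eq_decide_div_mod_eq]
  constructor
  · exact fun h => h.2
  · intro h
    exact ⟨lt_of_lt_of_le Nat.lt_two_pow_self (Nat.ge_two_pow_of_testBit h), h⟩

lemma dig_pairwise (n : ℕ) : (dig n).Pairwise (· < ·) := by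
  unfold dig
  exact List.pairwise_lt_range.filter _

lemma dig_ne_nil {n : ℕ} (h : n ≠ 0) : dig n ≠ [] := by
  intro h2
  apply h
  apply Nat.zero_of_testBit_eq_false
  intro i
  by_contra h3
  rw [Bool.not_eq_false, ← mem_dig, h2] at h3
  simp at h3

lemma dig_zero : dig 0 = [] := rfl

lemma le_of_mem_dig {N m i : ℕ} (hm : 2 ^ N ∣ m) (hi : i ∈ dig m) : N ≤ i := by
  obtain ⟨k, rfl⟩ := hm
  rw [mem_dig] at hi
  have h := Nat.testBit_two_pow_mul_add k (b := 0) (i := N) (by positivity) i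
  rw [Nat.add_zero] at h
  by_contra hlt
  push Not at hlt
  rw [h, if_pos hlt] at hi
  simp at hi

lemma lt_of_mem_dig {N n i : ℕ} (hn : n < 2 ^ N) (hi : i ∈ dig n) : i < N := by
  rw [mem_dig] at hi
  have := Nat.ge_two_pow_of_testBit hi
  exact (Nat.pow_lt_pow_iff_right (by norm_num)).1 (lt_of_le_of_lt this hn)

lemma dig_add {N n m : ℕ} (hn : n < 2 ^ N) (hm : 2 ^ N ∣ m) : dig (n + m) = dig n ++ dig m := by
  apply List.Pairwise.eq_of_mem_iff (r := (· < ·)) (dig_pairwise _)
  · rw [List.pairwise_append]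
    refine ⟨dig_pairwise _, dig_pairwise _, ?_⟩
    intro a ha b hb
    exact lt_of_lt_of_le (lt_of_mem_dig hn ha) (le_of_mem_dig hm hb)
  · intro i
    rw [List.mem_append, mem_dig, mem_dig, mem_dig]
    obtain ⟨k, rfl⟩ := hm
    have h1 := Nat.testBit_two_pow_mul_add k hn i
    have h2 := Nat.testBit_two_pow_mul_add k (b := 0) (i := N) (by positivity) i
    rw [Nat.add_zero] at h2
    rw [Nat.add_comm, h1, h2]
    by_cases hi : i < N
    · simp [hi]
    · rw [if_neg hi, if_neg hi]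
      constructor
      · exact Or.inr
      · rintro (h | h)
        · exact absurd (lt_of_mem_dig hn (mem_dig.2 h)) hi
        · exact h

lemma head_dig_add {N n m : ℕ} (h0 : n ≠ 0) (hn : n < 2 ^ N) (hm : 2 ^ N ∣ m) :
    (dig (n + m)).headD 0 = (dig n).headD 0 := by
  rw [dig_add hn hm]
  obtain ⟨d, r, h⟩ := List.exists_cons_of_ne_nil (dig_ne_nil h0)
  rw [h]
  rfl

lemma last_dig_add {N n m : ℕ} (h0 : m ≠ 0) (hn : n < 2 ^ N) (hm : 2 ^ N ∣ m) :
    (dig (n + m)).getLastD 0 = (dig m).getLastD 0 := by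
  rw [dig_add hn hm, List.getLastD_eq_getLast?, List.getLastD_eq_getLast?,
    List.getLast?_append_of_ne_nil _ (dig_ne_nil h0)]

lemma getLast_eq {n : ℕ} (h : dig n ≠ []) : (dig n).getLast h = (dig n).getLastD 0 := by
  rw [List.getLastD_eq_getLast?, List.getLast?_eq_some_getLast h]
  rfl

lemma last_lt {n : ℕ} (h : n ≠ 0) : (dig n).getLastD 0 < n := by
  rw [← getLast_eq (dig_ne_nil h)]
  have := List.getLast_mem (dig_ne_nil h)
  unfold dig at this ⊢
  exact List.mem_range.1 (List.mem_filter.1 this).1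

end Pool.Agent.Helper32.HT
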