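import Mathlib.Order.Filter.AtTopBot.Basic
import Mathlib.Order.Filter.Finite
import Pool.Agent.Helper32.HT.Digits

/-!
# The bits determined by the oracle
-/

set_option autoImplicit false

namespace Pool.Agent.Helper32.HT

open Filter

/-! ### the enumeration -/

lemma wst_mono (a b u : ℕ) (hab : a ≤ b) (h : Wst a u = true) : Wst b u = true := by
  unfold Wst at h ⊢
  rw [List.any_eq_true] at h ⊢
  obtain ⟨d, hd, h2⟩ := h
  rw [List.mem_range] at hd
  refine ⟨d, List.mem_range.2 (hd.trans_le hab), ?_⟩
  rw [decide_eq_true_eq] at h2 ⊢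
  exact Nat.Partrec.Code.evaln_mono hab h2

/-- The oracle: there is `c` such that `(e, y, a, j, c)` is never enumerated. -/
noncomputable def Oinf (e y a j : ℕ) : Bool :=
  open Classical in decide (∃ c, ∀ t, Wst t (qcode e y a j c) = false)

lemma oap_limit (e y a j : ℕ) : ∀ᶠ v in atTop, ∀ b,
    (∀ u < v, (∃ t, Wst t u = true) → Wst b u = true) → Oap v b e y a j = Oinf e y a j := by
  classical
  by_cases h : ∃ c, ∀ t, Wst t (qcode e y a j c) = false
  · obtain ⟨c, hc⟩ := h
    filter_upwards [eventually_gt_atTop (qcode e y a j c), eventually_gt_atTop c] with v hv hcv b _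
    have h1 : Oinf e y a j = true := by
      unfold Oinf
      exact decide_eq_true ⟨c, hc⟩
    rw [h1]
    unfold Oap
    rw [List.any_eq_true]
    refine ⟨c, List.mem_range.2 hcv, ?_⟩
    rw [hc b]
    simp [hv]
  · have h1 : Oinf e y a j = false := by
      unfold Oinf
      exact decide_eq_false h
    refine Eventually.of_forall fun v b hb => ?_
    rw [h1]
    by_contra h2
    rw [Bool.not_eq_false] at h2
    unfold Oap at h2
    rw [List.any_eq_true] at h2
    obtain ⟨c, -, hc⟩ := h2
    rw [Bool.and_eq_true, decide_eq_true_eq, Bool.not_eq_true'] at hc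
    obtain ⟨hc1, hc2⟩ := hc
    apply h
    refine ⟨c, fun t => ?_⟩
    by_contra h3
    rw [Bool.not_eq_false] at h3
    rw [hb _ hc1 ⟨t, h3⟩] at hc2
    exact absurd hc2 (by simp)

/-! ### dependence on the oracle -/

variable {O O' : ℕ → ℕ → ℕ → ℕ → Bool}

/-- The two oracles agree at the questions asked at `v`. -/
def Agree (O O' : ℕ → ℕ → ℕ → ℕ → Bool) (v : ℕ) : Prop :=
  ∀ e < v, ∀ z < v, ∀ y ∈ cSet z, ∀ j < v, O e y (cWit z y) j = O' e y (cWit z y) j

lemma Agree.mono {v v' : ℕ} (h : Agree O O' v) (hv : v' ≤ v) : Agree O O' v' :=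
  fun e he z hz y hy j hj => h e (he.trans_le hv) z (hz.trans_le hv) y hy j (hj.trans_le hv)

lemma looks_iff {e v z : ℕ} : looks O e v z = true ↔
    0 < cSum z ∧ cSum z < v ∧ ∀ y ∈ cSet z, ∀ j < v, O e y (cWit z y) j = true := by
  unfold looks
  simp [List.all_eq_true]

lemma looks_congr {v e z : ℕ} (h : Agree O O' v) (he : e < v) (hz : z < v) :
    looks O e v z = looks O' e v z := by
  rw [Bool.eq_iff_iff, looks_iff, looks_iff]
  constructor
  · rintro ⟨h1, h2, h3⟩
    exact ⟨h1, h2, fun y hy j hj => (h e he z hz y hy j hj) ▸ h3 y hy j hj⟩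
  · rintro ⟨h1, h2, h3⟩
    exact ⟨h1, h2, fun y hy j hj => (h e he z hz y hy j hj).symm ▸ h3 y hy j hj⟩

lemma find_congr {l : List ℕ} {p q : ℕ → Bool} (h : ∀ z ∈ l, p z = q z) :
    l.find? p = l.find? q := by
  induction l with
  | nil => rfl
  | cons z l ih =>
    rw [List.find?_cons, List.find?_cons, h z List.mem_cons_self,
      ih fun z hz => h z (List.mem_cons_of_mem _ hz)]

lemma nextZ_congr {v e : ℕ} (h : Agree O O' v) (he : e < v) (l : List ℕ) :
    nextZ O v e l = nextZ O' v e l := by
  unfold nextZ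
  apply find_congr
  intro z hz
  rw [looks_congr h he (List.mem_range.1 hz)]

lemma chosen_congr {v : ℕ} (h : Agree O O' v) : ∀ k ≤ v, chosen O v k = chosen O' v k := by
  intro k
  induction k with
  | zero => intro _; rfl
  | succ k ih =>
    intro hk
    rw [chosen, chosen, ih (by omega), nextZ_congr h (by omega)]

lemma pick_congr {s v : ℕ} (h : Agree O O' v) : pick O s v = pick O' s v := by
  unfold pick
  rw [chosen_congr h v le_rfl]

/-! ### the chosen claims -/

lemma nextZ_some {v e z : ℕ} {l : List ℕ} (h : nextZ O v e l = some z) :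
    z < v ∧ looks O e v z = true ∧ ∀ z' ∈ l, cVal z' ≠ cVal z := by
  unfold nextZ at h
  rw [List.find?_range_eq_some] at h
  obtain ⟨h1, h2, -⟩ := h
  rw [Bool.and_eq_true, List.all_eq_true] at h1
  exact ⟨List.mem_range.1 h2, h1.1, fun z' hz' => by simpa using h1.2 z' hz'⟩

lemma mem_chosen {v k z : ℕ} (h : z ∈ chosen O v k) :
    z < v ∧ ∃ e < k, looks O e v z = true := by
  induction k with
  | zero => simp [chosen] at h
  | succ k ih =>
    rw [chosen, List.mem_append] at h
    rcases h with h | h
    · rw [Option.mem_toList] at h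
      obtain ⟨h1, h2, -⟩ := nextZ_some h
      exact ⟨h1, k, Nat.lt_succ_self k, h2⟩
    · obtain ⟨h1, e, he, h2⟩ := ih h
      exact ⟨h1, e, he.trans (Nat.lt_succ_self k), h2⟩

lemma chosen_pairwise (O : ℕ → ℕ → ℕ → ℕ → Bool) (v k : ℕ) :
    (chosen O v k).Pairwise (fun z z' => cVal z' ≠ cVal z) := by
  induction k with
  | zero => exact List.Pairwise.nil
  | succ k ih =>
    rw [chosen]
    cases h : nextZ O v k (chosen O v k) with
    | none => simpa using ih
    | some z =>
      rw [Option.toList_some, List.singleton_append, List.pairwise_cons]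
      exact ⟨(nextZ_some h).2.2, ih⟩

lemma chosen_length (O : ℕ → ℕ → ℕ → ℕ → Bool) (v k : ℕ) : (chosen O v k).length ≤ k := by
  induction k with
  | zero => exact le_rfl
  | succ k ih =>
    rw [chosen, List.length_append]
    have : (nextZ O v k (chosen O v k)).toList.length ≤ 1 := by
      cases nextZ O v k (chosen O v k) <;> simp
    omega

lemma chosen_mono {v k k' z : ℕ} (hk : k ≤ k') (h : z ∈ chosen O v k) : z ∈ chosen O v k' := by
  induction k', hk using Nat.le_induction with
  | base => exact h
  | succ k' _ ih =>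
    rw [chosen, List.mem_append]
    exact Or.inr ih

lemma pick_of_mem {v k z : ℕ} (hk : k ≤ v) (h : z ∈ chosen O v k) :
    pick O (cVal z) v = some z := by
  have h1 := chosen_mono hk h
  unfold pick
  obtain ⟨l1, l2, h2⟩ := List.append_of_mem h1
  have h3 := chosen_pairwise O v v
  rw [h2, List.pairwise_append] at h3
  rw [h2, List.find?_append]
  have h4 : l1.find? (fun z' => decide (cVal z' = cVal z)) = none := by
    rw [List.find?_eq_none]
    intro z' hz' h5
    exact h3.2.2 z' hz' z List.mem_cons_self (by simpa using (of_decide_eq_true h5).symm)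
  rw [h4, List.find?_cons]
  simp

lemma pick_some {s v z : ℕ} (h : pick O s v = some z) : z < v ∧ cTop z < v := by
  unfold pick at h
  have h1 := List.mem_of_find?_eq_some h
  obtain ⟨h2, e, -, h3⟩ := mem_chosen h1
  rw [looks_iff] at h3
  exact ⟨h2, lt_trans (last_lt h3.1.ne') h3.2.1⟩

/-! ### the bits -/

lemma bstep_fst {s v : ℕ} {p : Bool} : (bstep O s (v, p)).1 ≤ v := by
  unfold bstep
  cases h : pick O s v with
  | none => simp
  | some z => simpa using (pick_some h).2.le

lemma iter_congr {s : ℕ} (k : ℕ) : ∀ (v : ℕ) (p : Bool), Agree O O' v →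
    (bstep O s)^[k] (v, p) = (bstep O' s)^[k] (v, p) := by
  induction k with
  | zero => intro v p _; rfl
  | succ k ih =>
    intro v p h
    rw [Function.iterate_succ_apply, Function.iterate_succ_apply]
    have h1 : bstep O s (v, p) = bstep O' s (v, p) := by
      unfold bstep
      rw [pick_congr (v := v) h]
    have h2 := bstep_fst (O := O) (s := s) (v := v) (p := p)
    rw [← h1]
    exact ih _ _ (h.mono h2)

lemma bf_congr {s v : ℕ} (h : Agree O O' v) : Bf O s v = Bf O' s v := by
  unfold Bf
  rw [iter_congr v v false h]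

lemma iter_eq {s : ℕ} (v : ℕ) : ∀ k ≥ v, ∀ p : Bool,
    ((bstep O s)^[k] (v, p)).2 = xor p (Bf O s v) := by
  induction v using Nat.strong_induction_on with
  | _ v ih =>
    cases h : pick O s v with
    | none =>
      have hfix : ∀ p : Bool, bstep O s (v, p) = (v, p) := by
        intro p
        unfold bstep
        rw [h]
        rfl
      have h1 : ∀ (k : ℕ) (p : Bool), (bstep O s)^[k] (v, p) = (v, p) := by
        intro k p
        exact Function.iterate_fixed (hfix p) k
      intro k _ p
      rw [h1, Bf, h1]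
      simp
    | some z =>
      obtain ⟨-, h1⟩ := pick_some h
      have hst : ∀ p : Bool, bstep O s (v, p) = (cTop z, !p) := by
        intro p
        unfold bstep
        rw [h]
        rfl
      have key : ∀ k ≥ v, ∀ p : Bool,
          ((bstep O s)^[k] (v, p)).2 = xor (!p) (Bf O s (cTop z)) := by
        intro k hk p
        obtain ⟨k', rfl⟩ : ∃ k', k = k' + 1 := ⟨k - 1, by omega⟩
        rw [Function.iterate_succ_apply, hst]
        exact ih _ h1 k' (by omega) _
      intro k hk p
      have hB : Bf O s v = xor (!false) (Bf O s (cTop z)) := key v le_rfl false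
      rw [key k hk p, hB]
      cases p <;> cases Bf O s (cTop z) <;> rfl

lemma bf_rec {s v z : ℕ} (h : pick O s v = some z) : Bf O s v = !Bf O s (cTop z) := by
  obtain ⟨-, h1⟩ := pick_some h
  obtain ⟨k, rfl⟩ : ∃ k, v = k + 1 := ⟨v - 1, by omega⟩
  rw [Bf, Function.iterate_succ_apply]
  have hst : bstep O s (k + 1, false) = (cTop z, true) := by
    unfold bstep
    rw [h]
    rfl
  rw [hst, iter_eq _ k (by omega)]
  simp

lemma agree_limit (a : ℕ) : ∀ᶠ v in atTop, ∀ b,
    (∀ u < v, (∃ t, Wst t u = true) → Wst b u = true) → Agree (Oap v b) Oinf a := by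
  have h1 : ∀ᶠ v in atTop, ∀ e < a, ∀ z < a, ∀ y ∈ cSet z, ∀ j < a, ∀ b,
      (∀ u < v, (∃ t, Wst t u = true) → Wst b u = true) →
        Oap v b e y (cWit z y) j = Oinf e y (cWit z y) j := by
    refine (eventually_all_finite (Set.finite_lt_nat a)).2 fun e _ => ?_
    refine (eventually_all_finite (Set.finite_lt_nat a)).2 fun z _ => ?_
    refine (eventually_all_finite (List.finite_toSet (cSet z))).2 fun y _ => ?_
    refine (eventually_all_finite (Set.finite_lt_nat a)).2 fun j _ => ?_
    exact oap_limit e y (cWit z y) j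
  filter_upwards [h1] with v hv b hb e he z hz y hy j hj
  exact hv e he z hz y hy j hj b hb

/-- The letters converge to the bits. -/
lemma ell_limit (s a : ℕ) : ∃ v0, ∀ v ≥ v0, ∀ b,
    (∀ u < v, (∃ t, Wst t u = true) → Wst b u = true) → ell s a v b = Bf Oinf s a := by
  obtain ⟨v0, h⟩ := eventually_atTop.1 (agree_limit a)
  exact ⟨v0, fun v hv b hb => bf_congr (h v hv b hb)⟩

end Pool.Agent.Helper32.HT
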