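import Mathlib.Computability.Primrec.List
import Pool.Agent.Helper32.HT.Defs

/-!
# The colouring is primitive recursive
-/

set_option autoImplicit false

namespace Pool.Agent.Helper32.HT

open Primrec Nat.Partrec

section General

variable {α β σ : Type*} [Primcodable α] [Primcodable β] [Primcodable σ]

lemma prim_any {f : α → List β} {p : α → β → Bool} (hf : Primrec f) (hp : Primrec₂ p) :
    Primrec fun a => (f a).any (p a) :=
  (list_foldr hf (const false)
    (Primrec.or.comp (hp.comp fst (fst.comp snd)) (snd.comp snd)).to₂).of_eq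
      fun a => by induction f a <;> simp [*]

lemma prim_all {f : α → List β} {p : α → β → Bool} (hf : Primrec f) (hp : Primrec₂ p) :
    Primrec fun a => (f a).all (p a) :=
  (list_foldr hf (const true)
    (Primrec.and.comp (hp.comp fst (fst.comp snd)) (snd.comp snd)).to₂).of_eq
      fun a => by induction f a <;> simp [*]

lemma prim_filter {f : α → List β} {p : α → β → Bool} (hf : Primrec f) (hp : Primrec₂ p) :
    Primrec fun a => (f a).filter (p a) :=
  (listFilterMap (g := fun a b => bif p a b then some b else none) hf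
    (Primrec.cond hp (option_some.comp snd) (const none)).to₂).of_eq
      fun a => by
        induction f a with
        | nil => rfl
        | cons b l ih =>
          rw [List.filterMap_cons, List.filter_cons]
          cases h : p a b <;> simp [ih]

lemma prim_find {f : α → List β} {p : α → β → Bool} (hf : Primrec f) (hp : Primrec₂ p) :
    Primrec fun a => (f a).find? (p a) :=
  (list_head?.comp (prim_filter hf hp)).of_eq fun _ => List.head?_filter

lemma prim_pow : Primrec₂ (fun a b : ℕ => a ^ b) := Primrec₂.unpaired'.1 Nat.Primrec.pow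

lemma prim_headD {f : α → List ℕ} (hf : Primrec f) : Primrec fun a => (f a).headD 0 :=
  (option_getD.comp (list_head?.comp hf) (const 0)).of_eq fun a => by
    cases f a <;> rfl

lemma prim_getLastD {f : α → List ℕ} (hf : Primrec f) : Primrec fun a => (f a).getLastD 0 :=
  (option_getD.comp (list_head?.comp (list_reverse.comp hf)) (const 0)).of_eq fun a => by
    rw [List.head?_reverse, List.getLastD_eq_getLast?]

lemma prim_sum {f : α → List ℕ} (hf : Primrec f) : Primrec fun a => (f a).sum :=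
  (list_foldr hf (const 0) (Primrec.nat_add.comp (fst.comp snd) (snd.comp snd)).to₂).of_eq
    fun a => by induction f a <;> simp [*]

end General

lemma prim_Wst : Primrec₂ Wst := by
  unfold Primrec₂
  refine prim_any (list_range.comp fst) ?_
  refine Primrec₂.mk (Primrec.eq.decide.comp (f := fun a b : Option ℕ => decide (a = b)) ?_ (const (some 0)))
  have h1 : Primrec (fun p : (ℕ × ℕ) × ℕ =>
      ((p.1.1, Denumerable.ofNat Code p.1.2.unpair.1), Nat.pair p.1.2.unpair.2 p.2)) := by
    refine Primrec.pair (Primrec.pair (fst.comp fst) ?_) ?_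
    · exact (Primrec.ofNat Code).comp (fst.comp (unpair.comp (snd.comp fst)))
    · exact Primrec₂.natPair.comp (snd.comp (unpair.comp (snd.comp fst))) snd
  exact Code.primrec_evaln.comp h1

lemma prim_qcode : Primrec (fun p : ℕ × ℕ × ℕ × ℕ × ℕ =>
    qcode p.1 p.2.1 p.2.2.1 p.2.2.2.1 p.2.2.2.2) := by
  unfold qcode
  exact Primrec₂.natPair.comp fst (Primrec₂.natPair.comp
    (Primrec₂.natPair.comp (fst.comp snd) (fst.comp (snd.comp snd)))
    (Primrec₂.natPair.comp (fst.comp (snd.comp (snd.comp snd)))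
      (snd.comp (snd.comp (snd.comp snd)))))

lemma prim_Oap : Primrec (fun p : (ℕ × ℕ) × (ℕ × ℕ × ℕ × ℕ) =>
    Oap p.1.1 p.1.2 p.2.1 p.2.2.1 p.2.2.2.1 p.2.2.2.2) := by
  unfold Oap
  refine prim_any (list_range.comp (fst.comp fst)) ?_
  have hq : Primrec (fun q : ((ℕ × ℕ) × (ℕ × ℕ × ℕ × ℕ)) × ℕ =>
      qcode q.1.2.1 q.1.2.2.1 q.1.2.2.2.1 q.1.2.2.2.2 q.2) := by
    have h := prim_qcode.comp (Primrec.pair (fst.comp (snd.comp fst))
      (Primrec.pair (fst.comp (snd.comp (snd.comp fst)))
      (Primrec.pair (fst.comp (snd.comp (snd.comp (snd.comp fst))))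
      (Primrec.pair (snd.comp (snd.comp (snd.comp (snd.comp (fst (α := (ℕ × ℕ) × (ℕ × ℕ × ℕ × ℕ)) (β := ℕ))))))
        snd))))
    exact h
  refine Primrec₂.mk (Primrec.and.comp ?_ (Primrec.not.comp ?_))
  · exact Primrec.nat_lt.decide.comp hq (fst.comp (fst.comp fst))
  · exact prim_Wst.comp (snd.comp (fst.comp fst)) hq

lemma prim_dig : Primrec dig := by
  unfold dig
  refine prim_filter list_range ?_
  refine Primrec₂.mk (Primrec.eq.decide.comp (f := fun a b : ℕ => decide (a = b)) ?_ (const 1))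
  exact Primrec.nat_mod.comp (Primrec.nat_div.comp fst (prim_pow.comp (const 2) snd)) (const 2)

lemma prim_cSet : Primrec cSet := prim_dig.comp (fst.comp unpair)

lemma prim_cWit : Primrec₂ cWit := by
  unfold cWit
  exact Primrec₂.mk ((list_getD 0).comp ((Primrec.ofNat (List ℕ)).comp (snd.comp (unpair.comp fst))) snd)

lemma prim_cSum : Primrec cSum := prim_sum prim_cSet

lemma prim_cVal : Primrec cVal := prim_headD (prim_dig.comp prim_cSum)

lemma prim_cTop : Primrec cTop := prim_getLastD (prim_dig.comp prim_cSum)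

section Oracle

variable {α : Type*} [Primcodable α] {O : α → ℕ → ℕ → ℕ → ℕ → Bool}

lemma prim_looks (hO : Primrec (fun p : α × (ℕ × ℕ × ℕ × ℕ) =>
      O p.1 p.2.1 p.2.2.1 p.2.2.2.1 p.2.2.2.2)) :
    Primrec (fun p : α × (ℕ × ℕ × ℕ) => looks (O p.1) p.2.1 p.2.2.1 p.2.2.2) := by
  unfold looks
  have hz : Primrec (fun p : α × (ℕ × ℕ × ℕ) => p.2.2.2) := snd.comp (snd.comp snd)
  have hv : Primrec (fun p : α × (ℕ × ℕ × ℕ) => p.2.2.1) := fst.comp (snd.comp snd)
  refine Primrec.and.comp (Primrec.nat_lt.decide.comp (const 0) (prim_cSum.comp hz))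
    (Primrec.and.comp (Primrec.nat_lt.decide.comp (prim_cSum.comp hz) hv) ?_)
  refine prim_all (prim_cSet.comp hz) ?_
  refine Primrec₂.mk ?_
  refine prim_all (list_range.comp (hv.comp fst)) ?_
  refine Primrec₂.mk ?_
  have he : Primrec (fun p : α × (ℕ × ℕ × ℕ) => p.2.1) := fst.comp snd
  have h := hO.comp (Primrec.pair (fst.comp (fst.comp (fst (α := (α × (ℕ × ℕ × ℕ)) × ℕ) (β := ℕ))))
    (Primrec.pair (he.comp (fst.comp fst)) (Primrec.pair (snd.comp fst)
      (Primrec.pair (prim_cWit.comp (hz.comp (fst.comp fst)) (snd.comp fst)) snd))))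
  exact h

lemma prim_nextZ (hO : Primrec (fun p : α × (ℕ × ℕ × ℕ × ℕ) =>
      O p.1 p.2.1 p.2.2.1 p.2.2.2.1 p.2.2.2.2)) :
    Primrec (fun p : α × (ℕ × ℕ × List ℕ) => nextZ (O p.1) p.2.1 p.2.2.1 p.2.2.2) := by
  unfold nextZ
  refine prim_find (list_range.comp (fst.comp snd)) ?_
  refine Primrec₂.mk (Primrec.and.comp ?_ ?_)
  · have h := (prim_looks hO).comp (Primrec.pair (fst.comp (fst (α := α × (ℕ × ℕ × List ℕ)) (β := ℕ)))
      (Primrec.pair (fst.comp (snd.comp (snd.comp fst)))
        (Primrec.pair (fst.comp (snd.comp fst)) snd)))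
    exact h
  · refine prim_all (snd.comp (snd.comp (snd.comp fst))) ?_
    refine (Primrec.not.comp (Primrec.eq.decide.comp (f := fun a b : ℕ => decide (a = b))
      (prim_cVal.comp snd) (prim_cVal.comp (snd.comp fst)))).to₂.of_eq ?_
    intro a b
    simp

lemma prim_chosen (hO : Primrec (fun p : α × (ℕ × ℕ × ℕ × ℕ) =>
      O p.1 p.2.1 p.2.2.1 p.2.2.2.1 p.2.2.2.2)) :
    Primrec (fun p : α × (ℕ × ℕ) => chosen (O p.1) p.2.1 p.2.2) := by
  have hstep : Primrec₂ (fun (p : α × (ℕ × ℕ)) (q : ℕ × List ℕ) =>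
      (nextZ (O p.1) p.2.1 q.1 q.2).toList ++ q.2) := by
    refine Primrec₂.mk (list_append.comp (optionToList.comp ?_) (snd.comp snd))
    have h := (prim_nextZ hO).comp (Primrec.pair
      (fst.comp (fst (α := α × (ℕ × ℕ)) (β := ℕ × List ℕ)))
      (Primrec.pair (fst.comp (snd.comp fst)) (Primrec.pair (fst.comp snd) (snd.comp snd))))
    exact h
  refine (nat_rec' (f := fun p : α × (ℕ × ℕ) => p.2.2) (g := fun _ => ([] : List ℕ))
    (snd.comp snd) (const []) hstep).of_eq ?_
  intro p
  induction p.2.2 with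
  | zero => rfl
  | succ k ih => rw [chosen, ← ih]

lemma prim_pick (hO : Primrec (fun p : α × (ℕ × ℕ × ℕ × ℕ) =>
      O p.1 p.2.1 p.2.2.1 p.2.2.2.1 p.2.2.2.2)) :
    Primrec (fun p : α × (ℕ × ℕ) => pick (O p.1) p.2.1 p.2.2) := by
  unfold pick
  refine prim_find ?_ ?_
  · exact (prim_chosen hO).comp (Primrec.pair fst
      (Primrec.pair (snd.comp snd) (snd.comp snd)))
  · exact Primrec₂.mk (Primrec.eq.decide.comp (f := fun a b : ℕ => decide (a = b))
      (prim_cVal.comp snd) (fst.comp (snd.comp fst)))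

lemma prim_Bf (hO : Primrec (fun p : α × (ℕ × ℕ × ℕ × ℕ) =>
      O p.1 p.2.1 p.2.2.1 p.2.2.2.1 p.2.2.2.2)) :
    Primrec (fun p : α × (ℕ × ℕ) => Bf (O p.1) p.2.1 p.2.2) := by
  unfold Bf
  refine snd.comp (nat_iterate (f := fun p : α × (ℕ × ℕ) => p.2.2)
    (g := fun p : α × (ℕ × ℕ) => (p.2.2, false))
    (h := fun p q => bstep (O p.1) p.2.1 q) (snd.comp snd)
    (Primrec.pair (snd.comp snd) (const false)) ?_)
  unfold bstep
  refine Primrec₂.mk (option_getD.comp ?_ snd)
  refine option_map ?_ ?_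
  · have h := (prim_pick hO).comp (Primrec.pair
      (fst.comp (fst (α := α × (ℕ × ℕ)) (β := ℕ × Bool)))
      (Primrec.pair (fst.comp (snd.comp fst)) (fst.comp snd)))
    exact h
  · exact Primrec₂.mk (Primrec.pair (prim_cTop.comp snd) (Primrec.not.comp (snd.comp (snd.comp fst))))

end Oracle

lemma prim_ell : Primrec (fun p : ℕ × (ℕ × ℕ × ℕ) => ell p.1 p.2.1 p.2.2.1 p.2.2.2) := by
  have h := (prim_Bf (α := ℕ × ℕ) (O := fun p => Oap p.1 p.2) prim_Oap).comp
    (Primrec.pair (snd.comp (snd (α := ℕ) (β := ℕ × ℕ × ℕ))) (Primrec.pair fst (fst.comp snd)))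
  exact h

lemma prim_lb : Primrec₂ (lb Wst) := by
  refine Primrec₂.mk ?_
  unfold lb
  refine option_getD.comp (prim_find (list_range.comp fst) ?_) fst
  refine Primrec₂.mk (Primrec.and.comp (prim_Wst.comp (snd.comp fst) snd)
    (Primrec.not.comp (prim_Wst.comp (fst.comp fst) snd)))

lemma prim_topP : Primrec topP := by
  unfold topP
  refine option_getD.comp (option_map list_head? ?_) (const _)
  exact Primrec₂.mk (snd.comp (snd.comp (snd.comp snd)))

lemma prim_pop : Primrec₂ pop := by
  refine Primrec₂.mk ?_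
  unfold pop
  refine prim_filter snd ?_
  exact Primrec₂.mk (Primrec.nat_lt.decide.comp (fst.comp snd) (fst.comp fst))

lemma prim_mul : Primrec₂ mul := Primrec₂.mk (Primrec.dom_finite _)

lemma prim_x : Primrec x := Primrec.dom_finite _

lemma prim_tau2 : Primrec₂ tau2 := Primrec₂.mk (Primrec.dom_finite _)

lemma prim_addF : Primrec₂ (fun a b : Fin 3 => a + b) := Primrec₂.mk (Primrec.dom_finite _)

lemma prim_enc : Primrec enc := Primrec.dom_finite _

section Machine

variable {α : Type*} [Primcodable α] {L : α → ℕ → ℕ → ℕ → Bool}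

lemma prim_lett (hL : Primrec (fun p : α × (ℕ × ℕ × ℕ) => L p.1 p.2.1 p.2.2.1 p.2.2.2)) :
    Primrec (fun p : α × (List Ent × ℕ × ℕ) => lett (L p.1) p.2.1 p.2.2.1 p.2.2.2) := by
  unfold lett
  refine option_getD.comp (option_map (list_head?.comp (fst.comp snd)) ?_) (const _)
  refine Primrec₂.mk ?_
  have h := hL.comp (Primrec.pair (fst.comp (fst (α := α × (List Ent × ℕ × ℕ)) (β := Ent)))
    (Primrec.pair (fst.comp (snd.comp snd))
      (Primrec.pair (fst.comp (snd.comp (snd.comp fst))) (snd.comp (snd.comp (snd.comp fst))))))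
  exact h

lemma prim_step (hL : Primrec (fun p : α × (ℕ × ℕ × ℕ) => L p.1 p.2.1 p.2.2.1 p.2.2.2)) :
    Primrec (fun p : α × (St × ℕ) => step Wst (L p.1) p.2.1 p.2.2) := by
  unfold step
  have ha : Primrec (fun p : α × (St × ℕ) => p.2.1.1) := fst.comp (fst.comp snd)
  have hst : Primrec (fun p : α × (St × ℕ) => p.2.1.2.1) := fst.comp (snd.comp (fst.comp snd))
  have hT : Primrec (fun p : α × (St × ℕ) => p.2.1.2.2) := snd.comp (snd.comp (fst.comp snd))
  have hb : Primrec (fun p : α × (St × ℕ) => p.2.2) := snd.comp snd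
  have hv : Primrec (fun p : α × (St × ℕ) => lb Wst p.2.1.1 p.2.2) := prim_lb.comp ha hb
  have hpop : Primrec (fun p : α × (St × ℕ) => pop (lb Wst p.2.1.1 p.2.2) p.2.1.2.1) :=
    prim_pop.comp hv hst
  have hlet : Primrec (fun p : α × (St × ℕ) =>
      lett (L p.1) (pop (lb Wst p.2.1.1 p.2.2) p.2.1.2.1) (lb Wst p.2.1.1 p.2.2) p.2.2) :=
    (prim_lett hL).comp (Primrec.pair fst (Primrec.pair hpop (Primrec.pair hv hb)))
  have hP : Primrec (fun p : α × (St × ℕ) =>
      mul (topP (pop (lb Wst p.2.1.1 p.2.2) p.2.1.2.1))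
        (x (lett (L p.1) (pop (lb Wst p.2.1.1 p.2.2) p.2.1.2.1) (lb Wst p.2.1.1 p.2.2) p.2.2))) :=
    prim_mul.comp (prim_topP.comp hpop) (prim_x.comp hlet)
  refine Primrec.pair hb (Primrec.pair (list_cons.comp ?_ hpop) ?_)
  · exact Primrec.pair hv (Primrec.pair ha (Primrec.pair hb hP))
  · exact prim_addF.comp hT (prim_tau2.comp hP (prim_topP.comp hst))

lemma prim_cl (hL : Primrec (fun p : α × (ℕ × ℕ × ℕ) => L p.1 p.2.1 p.2.2.1 p.2.2.2)) :
    Primrec (fun p : α × List ℕ => cl Wst (L p.1) p.2) := by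
  have hrun : Primrec (fun p : α × List ℕ => run Wst (L p.1) p.2) := by
    unfold run
    refine list_foldl (f := fun p : α × List ℕ => p.2.tail)
      (g := fun p : α × List ℕ => ((p.2.headD 0, [], 0) : St))
      (h := fun p q => step Wst (L p.1) q.1 q.2) (list_tail.comp snd)
      (Primrec.pair (prim_headD snd) (const _)) ?_
    refine Primrec₂.mk ?_
    exact (prim_step hL).comp (Primrec.pair (fst.comp fst) snd)
  unfold cl
  exact Primrec.pair (prim_topP.comp (fst.comp (snd.comp hrun))) (snd.comp (snd.comp hrun))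

end Machine


lemma prim_colour_aux (f : ℕ → List ℕ → G × Fin 3)
    (h : Primrec (fun p : ℕ × List ℕ => f p.1 p.2)) :
    Primrec (fun n => enc (f ((dig n).headD 0) (dig n))) := by
  have h1 : Primrec (fun n : ℕ => (((dig n).headD 0, dig n) : ℕ × List ℕ)) :=
    Primrec.pair (prim_headD prim_dig) prim_dig
  exact prim_enc.comp (h.comp h1)

/-- The colouring is primitive recursive. -/
theorem prim_colour : Primrec colour :=
  prim_colour_aux (fun s D => cl Wst (ell s) D) (prim_cl prim_ell)

theorem colour_computable : Computable colour := prim_colour.to_comp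

end Pool.Agent.Helper32.HT
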