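import Pool.Agent.Helper32.HT.Stack

/-!
# The equality forced by homogeneity
-/

set_option autoImplicit false

namespace Pool.Agent.Helper32.HT

variable {W : ℕ → ℕ → Bool} {ell : ℕ → ℕ → ℕ → Bool}

lemma lb_spec (W : ℕ → ℕ → Bool) (a b : ℕ) :
    lb W a b ≤ a ∧ (∀ u < lb W a b, W b u = true → W a u = true) ∧
      (lb W a b = a ∨ (W b (lb W a b) = true ∧ W a (lb W a b) = false)) := by
  unfold lb
  cases h : (List.range a).find? (fun u => W b u && !W a u) with
  | none =>
    rw [List.find?_range_eq_none] at h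
    refine ⟨le_rfl, ?_, Or.inl rfl⟩
    intro u hu hb
    have := h u hu
    simp only [Bool.not_and, Bool.not_not, Bool.or_eq_true, Bool.not_eq_true'] at this
    rcases this with h1 | h1
    · rw [hb] at h1
      exact absurd h1 (by simp)
    · exact h1
  | some i =>
    rw [List.find?_range_eq_some] at h
    obtain ⟨h1, h2, h3⟩ := h
    simp only [Bool.and_eq_true, Bool.not_eq_true'] at h1
    rw [List.mem_range] at h2
    refine ⟨h2.le, ?_, Or.inr h1⟩
    intro u hu hb
    have := h3 u hu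
    simp only [Bool.not_and, Bool.not_not, Bool.or_eq_true, Bool.not_eq_true'] at this
    rcases this with h1 | h1
    · rw [hb] at h1
      exact absurd h1 (by simp)
    · exact h1

lemma lb_large {K a b : ℕ} (h : ∀ u < K, W b u = true → W a u = true) (hK : K ≤ a) :
    K ≤ lb W a b := by
  by_contra hlt
  push Not at hlt
  obtain ⟨_, _, h3⟩ := lb_spec W a b
  rcases h3 with h3 | ⟨h3, h4⟩
  · omega
  · rw [h _ hlt h3] at h4
    exact absurd h4 (by simp)

/-- All elements below `K` that are ever enumerated are enumerated at stage `N`. -/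
def Settled (W : ℕ → ℕ → Bool) (N K : ℕ) : Prop := ∀ u < K, (∃ t, W t u = true) → W N u = true

lemma Settled.mono (hW : ∀ a b u, a ≤ b → W a u = true → W b u = true) {N N' K : ℕ}
    (h : Settled W N K) (hN : N ≤ N') : Settled W N' K :=
  fun u hu ht => hW _ _ _ hN (h u hu ht)

lemma exists_settled (hW : ∀ a b u, a ≤ b → W a u = true → W b u = true) (K : ℕ) :
    ∃ N, Settled W N K := by
  induction K with
  | zero => exact ⟨0, fun u hu => absurd hu (Nat.not_lt_zero _)⟩
  | succ K ih =>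
    obtain ⟨N, hN⟩ := ih
    by_cases h : ∃ t, W t K = true
    · obtain ⟨t, ht⟩ := h
      refine ⟨max N t, ?_⟩
      intro u hu hex
      rcases Nat.lt_succ_iff_lt_or_eq.1 hu with h1 | h1
      · exact hW _ _ _ (le_max_left _ _) (hN u h1 hex)
      · subst h1
        exact hW _ _ _ (le_max_right _ _) ht
    · refine ⟨N, ?_⟩
      intro u hu hex
      rcases Nat.lt_succ_iff_lt_or_eq.1 hu with h1 | h1
      · exact hN u h1 hex
      · subst h1
        exact absurd hex h

lemma lb_far (hW : ∀ a b u, a ≤ b → W a u = true → W b u = true) {N K a b : ℕ}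
    (hs : Settled W N K) (hK : K ≤ N) (ha : N ≤ a) : K ≤ lb W a b :=
  lb_large (fun u hu hb => hW _ _ _ ha (hs u hu ⟨b, hb⟩)) (hK.trans ha)

lemma lab_far (hW : ∀ a b u, a ≤ b → W a u = true → W b u = true) {N M : ℕ}
    (hs : Settled W N (M + 1)) (hM : M + 1 ≤ N) (r : List ℕ) {a : ℕ} (ha : N ≤ a)
    (hr : ∀ y ∈ r, N ≤ y) : Lab W M a r := by
  induction r generalizing a with
  | nil => trivial
  | cons b r ih =>
    refine ⟨Nat.lt_of_succ_le (lb_far hW hs hM ha), ?_⟩
    exact ih (hr b List.mem_cons_self) fun y hy => hr y (List.mem_cons_of_mem _ hy)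

lemma Lab.mono {M M' : ℕ} (h : M' ≤ M) (r : List ℕ) {a : ℕ} (hl : Lab W M a r) :
    Lab W M' a r := by
  induction r generalizing a with
  | nil => trivial
  | cons b r ih => exact ⟨lt_of_le_of_lt h hl.1, ih hl.2⟩

/-- Invariant: the entries know everything below their labels, and their labels are at least
`v0`. -/
def KInv (W : ℕ → ℕ → Bool) (v0 : ℕ) (S : St) : Prop :=
  ∀ e ∈ S.2.1, v0 ≤ e.1 ∧ ∀ u < e.1, W S.1 u = true → W e.2.2.1 u = true

lemma kinv_step {v0 : ℕ} {S : St} (h : KInv W v0 S) {b : ℕ} (hv : v0 ≤ lb W S.1 b) :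
    KInv W v0 (step W ell S b) := by
  intro e he
  simp only [step, List.mem_cons] at he
  rcases he with he | he
  · subst he
    exact ⟨hv, fun u _ hu => hu⟩
  · obtain ⟨he1, he2⟩ := mem_pop.1 he
    obtain ⟨g1, g2⟩ := h e he1
    refine ⟨g1, fun u hu hb => ?_⟩
    exact g2 u hu ((lb_spec W S.1 b).2.1 u (hu.trans he2) hb)

lemma kinv_foldl (hW : ∀ a b u, a ≤ b → W a u = true → W b u = true) {N v0 : ℕ}
    (hs : Settled W N v0) (hN : v0 ≤ N) (r : List ℕ) {S : St} (hS : N ≤ S.1)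
    (hr : ∀ y ∈ r, N ≤ y) (h : KInv W v0 S) : KInv W v0 (r.foldl (step W ell) S) := by
  induction r generalizing S with
  | nil => exact h
  | cons b r ih =>
    rw [List.foldl_cons]
    exact ih (hr b List.mem_cons_self) (fun y hy => hr y (List.mem_cons_of_mem _ hy))
      (kinv_step h (lb_far hW hs hN hS))

lemma rel_ne_nil {base : List Ent} {a0 : ℕ} {Q : G} {st st' : List Ent}
    (h : Rel ell base a0 Q st st') (hb : base ≠ []) : st' ≠ [] := by
  obtain ⟨k, hk, _⟩ := h
  rw [hk]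
  intro h2
  exact hb (List.append_eq_nil_iff.1 h2).2

/-- The bottom entry of a union of two far lists is true. -/
lemma bottom_true (hW : ∀ a b u, a ≤ b → W a u = true → W b u = true) {N v0 : ℕ}
    (hs : Settled W N v0) (hN : v0 ≤ N) {E1 : List ℕ} (hE1 : E1 ≠ [])
    (hE1' : ∀ y ∈ E1, N ≤ y) {N' : ℕ} (hs' : Settled W N' (E1.getLast hE1 + 1))
    (hN' : E1.getLast hE1 + 1 ≤ N') {E2 : List ℕ} (hE2 : E2 ≠ []) (hE2' : ∀ y ∈ E2, N' ≤ y) :
    (run W ell (E1 ++ E2)).2.1 ≠ [] ∧ ∀ e ∈ (run W ell (E1 ++ E2)).2.1.getLast?,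
      v0 ≤ e.1 ∧ ∀ u < e.1, (∃ t, W t u = true) → W e.2.2.1 u = true := by
  obtain ⟨f0, r2, rfl⟩ := List.exists_cons_of_ne_nil hE2
  rw [run_append hE1, List.foldl_cons]
  set S := run W ell E1 with hSdef
  set m := E1.getLast hE1 with hm
  have hS1 : S.1 = m := run_fst hE1
  have hNm : N ≤ m := hE1' m (List.getLast_mem hE1)
  have hf0 : N' ≤ f0 := hE2' f0 List.mem_cons_self
  -- the base
  obtain ⟨hv1, hv2, -⟩ := lb_spec W m f0
  have hKS : KInv W v0 S := by
    obtain ⟨e0, r1, rfl⟩ := List.exists_cons_of_ne_nil hE1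
    rw [hSdef, run]
    apply kinv_foldl hW hs hN
    · exact hE1' e0 List.mem_cons_self
    · exact fun y hy => hE1' y (List.mem_cons_of_mem _ hy)
    · intro e he
      simp at he
  have hbase : ∀ e ∈ (step W ell S f0).2.1,
      v0 ≤ e.1 ∧ ∀ u < e.1, (∃ t, W t u = true) → W e.2.2.1 u = true := by
    intro e he
    simp only [step, List.mem_cons] at he
    rw [hS1] at he
    rcases he with he | he
    · subst he
      refine ⟨lb_far hW hs hN hNm, fun u hu hex => ?_⟩
      exact hW _ _ _ hf0 (hs' u (by simp only at hu; omega) hex)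
    · obtain ⟨he1, he2⟩ := mem_pop.1 he
      obtain ⟨g1, g2⟩ := hKS e he1
      refine ⟨g1, fun u hu hex => ?_⟩
      apply g2 u hu
      rw [hS1]
      apply hv2 u (by omega)
      exact hW _ _ _ hf0 (hs' u (by omega) hex)
  have hctx := foldl_ctx (W := W) (ell := ell) (base := (step W ell S f0).2.1)
    (M := lb W S.1 f0) (a0 := S.1) (b0 := f0) rfl
    (by
      intro e he
      simp only [step, List.mem_cons] at he
      rcases he with he | he
      · subst he
        exact le_rfl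
      · exact (mem_pop.1 he).2.le)
    (T0 := (step W ell S f0).2.2) r2 (A := (f0, [], 0)) (C := step W ell S f0) rfl
    (by simp) ⟨(0, false), by simp, by simp⟩ List.Pairwise.nil
    (by
      apply Lab.mono (M := m)
      · rw [hS1]; exact hv1
      · exact lab_far hW hs' hN' r2 hf0 fun y hy => hE2' y (List.mem_cons_of_mem _ hy))
  have hbne : (step W ell S f0).2.1 ≠ [] := by simp [step]
  refine ⟨rel_ne_nil hctx.2 hbne, ?_⟩
  obtain ⟨k, hk, -⟩ := hctx.2
  intro e he
  apply hbase e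
  rw [hk, List.getLast?_append_of_ne_nil _ hbne] at he
  exact List.mem_of_getLast? he

/-- The colour of `D ++ E` for a far list `E`. -/
lemma key (hW : ∀ a b u, a ≤ b → W a u = true → W b u = true) {B : ℕ → Bool}
    {D : List ℕ} (hD : D ≠ []) {v0 : ℕ}
    (R1 : ∀ v ≥ v0, ∀ b, (∀ u < v, (∃ t, W t u = true) → W b u = true) →
      ell (D.getLast hD) v b = B (D.getLast hD)) {N : ℕ}
    (hs : Settled W N v0) (hN : v0 ≤ N) (hsD : Settled W N (D.getLast hD + 1))
    (hND : D.getLast hD + 1 ≤ N) {E1 : List ℕ} (hE1 : E1 ≠ [])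
    (hE1' : ∀ y ∈ E1, N ≤ y) {N' : ℕ} (hs' : Settled W N' (E1.getLast hE1 + 1))
    (hN' : E1.getLast hE1 + 1 ≤ N') {E2 : List ℕ} (hE2 : E2 ≠ []) (hE2' : ∀ y ∈ E2, N' ≤ y) :
    ∃ Q : G, cl W ell (D ++ (E1 ++ E2)) =
      (mul (mul (mul Q (x (B (D.getLast hD)))) x0i) (topP (run W ell (E1 ++ E2)).2.1),
        (run W ell D).2.2 + tau2 Q (topP (run W ell D).2.1) + (run W ell (E1 ++ E2)).2.2) := by
  have hbot := bottom_true (ell := ell) hW hs hN hE1 hE1' hs' hN' hE2 hE2'
  obtain ⟨e0, r1, rfl⟩ := List.exists_cons_of_ne_nil hE1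
  set a := D.getLast hD with ha
  set S := run W ell D with hSdef
  have hS1 : S.1 = a := run_fst hD
  have he0 : N ≤ e0 := hE1' e0 List.mem_cons_self
  obtain ⟨hv1, hv2, -⟩ := lb_spec W a e0
  have hr : ∀ y ∈ r1 ++ E2, N ≤ y := by
    intro y hy
    rcases List.mem_append.1 hy with hy | hy
    · exact hE1' y (List.mem_cons_of_mem _ hy)
    · have h1 := hE2' y hy
      have h2 := hE1' _ (List.getLast_mem hE1)
      omega
  have hctx := foldl_ctx (W := W) (ell := ell) (base := (step W ell S e0).2.1)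
    (M := lb W S.1 e0) (a0 := S.1) (b0 := e0) rfl
    (by
      intro e he
      simp only [step, List.mem_cons] at he
      rcases he with he | he
      · subst he
        exact le_rfl
      · exact (mem_pop.1 he).2.le)
    (T0 := (step W ell S e0).2.2) (r1 ++ E2) (A := (e0, [], 0)) (C := step W ell S e0) rfl
    (by simp) ⟨(0, false), by simp, by simp⟩ List.Pairwise.nil
    (by
      apply Lab.mono (M := a)
      · rw [hS1]; exact hv1
      · exact lab_far hW hsD hND _ he0 hr)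
  have hrun : run W ell ((e0 :: r1) ++ E2) = (r1 ++ E2).foldl (step W ell) (e0, [], 0) := rfl
  rw [← hrun] at hctx
  have hrun2 : run W ell (D ++ ((e0 :: r1) ++ E2)) =
      (r1 ++ E2).foldl (step W ell) (step W ell S e0) := by
    rw [run_append hD]
    rfl
  refine ⟨mul (topP (pop (lb W S.1 e0) S.2.1))
        (x (lett ell (pop (lb W S.1 e0) S.2.1) (lb W S.1 e0) e0)), ?_⟩
  rw [cl, hrun2, Prod.mk.injEq]
  refine ⟨?_, ?_⟩
  · obtain ⟨k, hk, hlast⟩ := hctx.2
    rw [hk, topP_map _ _ _ hbot.1]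
    congr 1
    have hl := List.getLast?_eq_some_getLast hbot.1
    have h1 := hlast _ hl
    obtain ⟨h2, h3⟩ := hbot.2 _ hl
    rw [h1, hS1, R1 _ h2 _ h3]
  · rw [hctx.1]
    rfl

/-- The forced equality. -/
theorem forced (hW : ∀ a b u, a ≤ b → W a u = true → W b u = true) (B : ℕ → Bool)
    (R1 : ∀ a, ∃ v0, ∀ v ≥ v0, ∀ b, (∀ u < v, (∃ t, W t u = true) → W b u = true) →
      ell a v b = B a)
    {D D' : List ℕ} (hD : D ≠ []) (hD' : D' ≠ [])
    (hE : ∀ N, ∃ E1 : List ℕ, E1 ≠ [] ∧ (∀ y ∈ E1, N ≤ y) ∧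
      ∀ N', ∃ E2 : List ℕ, E2 ≠ [] ∧ (∀ y ∈ E2, N' ≤ y) ∧
        cl W ell (D ++ (E1 ++ E2)) = cl W ell D ∧
        cl W ell (D' ++ (E1 ++ E2)) = cl W ell D') :
    B (D.getLast hD) = B (D'.getLast hD') := by
  obtain ⟨v0, hv0⟩ := R1 (D.getLast hD)
  obtain ⟨v1, hv1⟩ := R1 (D'.getLast hD')
  set v := max v0 v1 with hv
  set m := max (D.getLast hD) (D'.getLast hD') with hm
  obtain ⟨N0, hN0⟩ := exists_settled hW (max v (m + 1))
  set N := max N0 (max v (m + 1)) with hNdef
  have hNs : Settled W N (max v (m + 1)) := hN0.mono hW (le_max_left _ _)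
  have hNle : max v (m + 1) ≤ N := le_max_right _ _
  obtain ⟨E1, hE1, hE1', hE⟩ := hE N
  obtain ⟨N1, hN1⟩ := exists_settled hW (E1.getLast hE1 + 1)
  set N' := max N1 (E1.getLast hE1 + 1) with hN'def
  have hN's : Settled W N' (E1.getLast hE1 + 1) := hN1.mono hW (le_max_left _ _)
  obtain ⟨E2, hE2, hE2', hc, hc'⟩ := hE N'
  have hsub : ∀ K, K ≤ max v (m + 1) → Settled W N K := fun K hK u hu => hNs u (hu.trans_le hK)
  obtain ⟨Q, hQ⟩ := key (ell := ell) hW hD (B := B) (v0 := v)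
    (fun w hw b hb => hv0 w ((le_max_left _ _).trans hw) b hb)
    (hsub v (le_max_left _ _)) ((le_max_left _ _).trans hNle)
    (hsub _ (le_trans (Nat.add_le_add_right (le_max_left _ _) 1) (le_max_right _ _)))
    ((Nat.add_le_add_right (le_max_left _ _) 1).trans ((le_max_right _ _).trans hNle))
    hE1 hE1' hN's (le_max_right _ _) hE2 hE2'
  obtain ⟨Q', hQ'⟩ := key (ell := ell) hW hD' (B := B) (v0 := v)
    (fun w hw b hb => hv1 w ((le_max_right _ _).trans hw) b hb)
    (hsub v (le_max_left _ _)) ((le_max_left _ _).trans hNle)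
    (hsub _ (le_trans (Nat.add_le_add_right (le_max_right _ _) 1) (le_max_right _ _)))
    ((Nat.add_le_add_right (le_max_right _ _) 1).trans ((le_max_right _ _).trans hNle))
    hE1 hE1' hN's (le_max_right _ _) hE2 hE2'
  rw [hc, cl, Prod.mk.injEq] at hQ
  rw [hc', cl, Prod.mk.injEq] at hQ'
  obtain ⟨hQ1, hQ2⟩ := hQ
  obtain ⟨hQ1', hQ2'⟩ := hQ'
  rw [hQ1] at hQ2
  rw [hQ1'] at hQ2'
  apply tau_inj Q Q' _ _ (topP (run W ell (E1 ++ E2)).2.1)
  have h1 : ∀ a b c : Fin 3, a = a + b + c → b = -c := by decide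
  rw [h1 _ _ _ hQ2, h1 _ _ _ hQ2']

end Pool.Agent.Helper32.HT
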