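import Mathlib.Data.Fintype.Pigeonhole
import Mathlib.Data.Set.Finite.Lemmas
import Mathlib.Algebra.BigOperators.Group.Finset.Basic
import Mathlib.Algebra.BigOperators.ModEq
import Pool.Agent.Helper32.HT.Bits
import Pool.Agent.Helper32.HT.Forced

/-!
# Far sums and the forced equality for numbers
-/

set_option autoImplicit false

namespace Pool.Agent.Helper32.HT

lemma far_sum {H : Set ℕ} (hH : H.Infinite) (U : Finset ℕ) (N : ℕ) :
    ∃ F : Finset ℕ, F.Nonempty ∧ (F : Set ℕ) ⊆ H ∧ Disjoint F U ∧ 2 ^ N ∣ ∑ y ∈ F, y := by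
  classical
  have hinf : (H \ (U : Set ℕ)).Infinite := hH.sdiff U.finite_toSet
  have : Infinite ↥(H \ (U : Set ℕ)) := hinf.to_subtype
  obtain ⟨r, hr⟩ := Finite.exists_infinite_fiber
    (fun y : ↥(H \ (U : Set ℕ)) => (⟨(y : ℕ) % 2 ^ N, Nat.mod_lt _ (by positivity)⟩ : Fin (2 ^ N)))
  obtain ⟨s, hs⟩ := Infinite.exists_subset_card_eq
    ↥((fun y : ↥(H \ (U : Set ℕ)) =>
      (⟨(y : ℕ) % 2 ^ N, Nat.mod_lt _ (by positivity)⟩ : Fin (2 ^ N))) ⁻¹' {r}) (2 ^ N)
  set f : ↥((fun y : ↥(H \ (U : Set ℕ)) =>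
      (⟨(y : ℕ) % 2 ^ N, Nat.mod_lt _ (by positivity)⟩ : Fin (2 ^ N))) ⁻¹' {r}) ↪ ℕ :=
    ⟨fun y => ((y : ↥(H \ (U : Set ℕ))) : ℕ), fun a b hab => Subtype.ext (Subtype.ext hab)⟩
    with hf
  refine ⟨s.map f, ?_, ?_, ?_, ?_⟩
  · rw [Finset.map_nonempty, ← Finset.card_pos, hs]
    positivity
  · intro y hy
    rw [Finset.mem_coe, Finset.mem_map] at hy
    obtain ⟨a, -, rfl⟩ := hy
    exact a.1.2.1
  · rw [Finset.disjoint_left]
    intro y hy hU
    rw [Finset.mem_map] at hy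
    obtain ⟨a, -, rfl⟩ := hy
    exact a.1.2.2 hU
  · rw [Finset.sum_map]
    have h1 : ∀ a ∈ s, f a ≡ (r : ℕ) [MOD 2 ^ N] := by
      intro a _
      have h2 := a.2
      rw [Set.mem_preimage, Set.mem_singleton_iff] at h2
      have h3 := congrArg Fin.val h2
      simp only at h3
      show ((a : ↥(H \ (U : Set ℕ))) : ℕ) % 2 ^ N = r % 2 ^ N
      rw [h3, Nat.mod_eq_of_lt r.2]
    have h2 : (∑ a ∈ s, f a) ≡ ∑ a ∈ s, (r : ℕ) [MOD 2 ^ N] := by
      exact Nat.ModEq.sum h1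
    rw [Finset.sum_const, hs, smul_eq_mul] at h2
    have h3 : 2 ^ N * (r : ℕ) ≡ 0 [MOD 2 ^ N] := by
      rw [Nat.modEq_zero_iff_dvd]
      exact dvd_mul_right _ _
    exact (Nat.modEq_zero_iff_dvd).1 (h2.trans h3)

lemma sum_pos' {F : Finset ℕ} {H : Set ℕ} (hpos : ∀ y ∈ H, 0 < y) (hF : F.Nonempty)
    (hFH : (F : Set ℕ) ⊆ H) : 0 < ∑ y ∈ F, y :=
  Finset.sum_pos (fun y hy => hpos y (hFH hy)) hF

/-- The forced equality for a homogeneous set. -/
theorem forcedH {H : Set ℕ} (hH : H.Infinite) (hpos : ∀ y ∈ H, 0 < y) {i : ℕ}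
    (hom : ∀ F : Finset ℕ, F.Nonempty → (F : Set ℕ) ⊆ H → colour (∑ y ∈ F, y) = i)
    {F1 F0 : Finset ℕ} (hF1 : F1.Nonempty) (hF1H : (F1 : Set ℕ) ⊆ H) (hF0 : F0.Nonempty)
    (hF0H : (F0 : Set ℕ) ⊆ H) (hdis : Disjoint F0 F1) {N0 : ℕ} (hN0 : ∑ y ∈ F1, y < 2 ^ N0)
    (hN0' : 2 ^ N0 ∣ ∑ y ∈ F0, y) :
    Bf Oinf ((dig (∑ y ∈ F1, y)).headD 0) ((dig (∑ y ∈ F1, y)).getLastD 0) =
      Bf Oinf ((dig (∑ y ∈ F1, y)).headD 0) ((dig (∑ y ∈ F0, y)).getLastD 0) := by
  classical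
  set n1 := ∑ y ∈ F1, y with hn1
  set m0 := ∑ y ∈ F0, y with hm0
  have hn1pos : 0 < n1 := sum_pos' hpos hF1 hF1H
  have hm0pos : 0 < m0 := sum_pos' hpos hF0 hF0H
  set s := (dig n1).headD 0 with hs
  have hDne : dig n1 ≠ [] := dig_ne_nil hn1pos.ne'
  have hDne' : dig (n1 + m0) ≠ [] := dig_ne_nil (by omega)
  have hcol : ∀ F : Finset ℕ, F.Nonempty → (F : Set ℕ) ⊆ H →
      (dig (∑ y ∈ F, y)).headD 0 = s → cl Wst (ell s) (dig (∑ y ∈ F, y)) =
        cl Wst (ell s) (dig n1) := by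
    intro F hF hFH hhead
    apply enc_inj
    have h1 := hom F hF hFH
    have h2 := hom F1 hF1 hF1H
    unfold colour at h1 h2
    rw [hhead] at h1
    rw [← hn1, ← hs] at h2
    rw [h1, h2]
  have hU01 : ((F1 ∪ F0 : Finset ℕ) : Set ℕ) ⊆ H := by
    rw [Finset.coe_union]
    exact Set.union_subset hF1H hF0H
  have hsum01 : ∑ y ∈ F1 ∪ F0, y = n1 + m0 := Finset.sum_union hdis.symm
  have key := forced (W := Wst) (ell := ell s) wst_mono (Bf Oinf s) (ell_limit s)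
    (D := dig n1) (D' := dig (n1 + m0)) hDne hDne' (by
      intro N
      obtain ⟨K, hK⟩ : ∃ K, n1 + m0 < 2 ^ K := ⟨n1 + m0, Nat.lt_two_pow_self⟩
      obtain ⟨F, hF, hFH, hFU, hFd⟩ := far_sum hH (F1 ∪ F0) (max N K)
      set m1 := ∑ y ∈ F, y with hm1
      have hm1pos : 0 < m1 := sum_pos' hpos hF hFH
      have hKd : 2 ^ K ∣ m1 := (pow_dvd_pow 2 (le_max_right _ _)).trans hFd
      have hNd : 2 ^ N ∣ m1 := (pow_dvd_pow 2 (le_max_left _ _)).trans hFd
      refine ⟨dig m1, dig_ne_nil hm1pos.ne', fun y hy => le_of_mem_dig hNd hy, ?_⟩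
      intro N'
      obtain ⟨K', hK'⟩ : ∃ K', m1 < 2 ^ K' := ⟨m1, Nat.lt_two_pow_self⟩
      obtain ⟨F', hF', hFH', hFU', hFd'⟩ := far_sum hH (F1 ∪ F0 ∪ F) (max N' (max K K'))
      set m2 := ∑ y ∈ F', y with hm2
      have hm2pos : 0 < m2 := sum_pos' hpos hF' hFH'
      have hKd' : 2 ^ K' ∣ m2 := (pow_dvd_pow 2 (le_trans (le_max_right _ _)
        (le_max_right _ _))).trans hFd'
      have hKd2 : 2 ^ K ∣ m2 := (pow_dvd_pow 2 (le_trans (le_max_left _ _)
        (le_max_right _ _))).trans hFd'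
      have hNd' : 2 ^ N' ∣ m2 := (pow_dvd_pow 2 (le_max_left _ _)).trans hFd'
      refine ⟨dig m2, dig_ne_nil hm2pos.ne', fun y hy => le_of_mem_dig hNd' hy, ?_, ?_⟩
      · have hd1 : dig m1 ++ dig m2 = dig (m1 + m2) := (dig_add hK' hKd').symm
        have hK12 : 2 ^ K ∣ m1 + m2 := dvd_add hKd hKd2
        have hn1K : n1 < 2 ^ K := by omega
        rw [hd1, ← dig_add hn1K hK12]
        have hdis1 : Disjoint F F1 := hFU.mono_right Finset.subset_union_left
        have hdis2 : Disjoint F' (F1 ∪ F) := by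
          apply hFU'.mono_right
          intro y hy
          rw [Finset.mem_union] at hy
          simp only [Finset.mem_union]
          tauto
        have hsum : ∑ y ∈ F1 ∪ F ∪ F', y = n1 + (m1 + m2) := by
          rw [Finset.sum_union hdis2.symm, Finset.sum_union hdis1.symm, ← hn1, ← hm1, ← hm2,
            add_assoc]
        rw [← hsum]
        apply hcol
        · exact hF1.mono (fun y hy => by simp [hy])
        · simp only [Finset.coe_union]
          exact Set.union_subset (Set.union_subset hF1H hFH) hFH'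
        · rw [hsum]
          exact head_dig_add hn1pos.ne' hn1K hK12
      · have hd1 : dig m1 ++ dig m2 = dig (m1 + m2) := (dig_add hK' hKd').symm
        have hK12 : 2 ^ K ∣ m1 + m2 := dvd_add hKd hKd2
        rw [hd1, ← dig_add hK hK12]
        have hsum : ∑ y ∈ F1 ∪ F0 ∪ F ∪ F', y = n1 + m0 + (m1 + m2) := by
          rw [Finset.sum_union hFU'.symm, Finset.sum_union hFU.symm, hsum01, ← hm1, ← hm2,
            add_assoc]
        have hhead0 : (dig (n1 + m0)).headD 0 = s := head_dig_add hn1pos.ne' hN0 hN0'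
        have h1 := hcol (F1 ∪ F0 ∪ F ∪ F') (hF1.mono (fun y hy => by simp [hy]))
          (by
            simp only [Finset.coe_union]
            exact Set.union_subset (Set.union_subset (Set.union_subset hF1H hF0H) hFH) hFH')
          (by
            rw [hsum, head_dig_add (by omega) hK hK12]
            exact hhead0)
        have h2 := hcol (F1 ∪ F0) (hF1.mono (fun y hy => by simp [hy])) hU01
          (by rw [hsum01]; exact hhead0)
        rw [hsum] at h1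
        rw [hsum01] at h2
        rw [h1, h2])
  rw [getLast_eq, getLast_eq, last_dig_add hm0pos.ne' hN0 hN0'] at key
  exact key

end Pool.Agent.Helper32.HT
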