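import Mathlib.Computability.Halting
import Pool.Agent.Helper32.HT.Sums

/-!
# Diagonalisation
-/

set_option autoImplicit false

namespace Pool.Agent.Helper32.HT

open Filter Nat.Partrec

/-- The relation on numbers belonging to a relation on tuples. -/
def relNat (R : ℕ × ℕ × ℕ × ℕ × ℕ → Prop) (q : ℕ) : Prop :=
  R (q.unpair.1.unpair.1.unpair.1, q.unpair.1.unpair.1.unpair.2, q.unpair.1.unpair.2.unpair.1,
    q.unpair.1.unpair.2.unpair.2, q.unpair.2)

lemma exists_index {R : ℕ × ℕ × ℕ × ℕ × ℕ → Prop} (hR : ComputablePred R) :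
    ∃ e : ℕ, ∀ y a j c : ℕ, (∀ t, Wst t (qcode e y a j c) = false) ↔ ∀ d, R (y, a, j, c, d) := by
  classical
  obtain ⟨hdec, hc⟩ := hR
  have h1 : Computable (fun q : ℕ => decide (relNat R q)) := by
    have h2 : Computable (fun q : ℕ => ((q.unpair.1.unpair.1.unpair.1,
        q.unpair.1.unpair.1.unpair.2, q.unpair.1.unpair.2.unpair.1,
        q.unpair.1.unpair.2.unpair.2, q.unpair.2) : ℕ × ℕ × ℕ × ℕ × ℕ)) := by
      have hu : Primrec Nat.unpair := Primrec.unpair
      have f1 : Primrec (fun q : ℕ => q.unpair.1) := Primrec.fst.comp hu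
      have f2 : Primrec (fun q : ℕ => q.unpair.2) := Primrec.snd.comp hu
      exact (Primrec.pair (f1.comp (f1.comp f1)) (Primrec.pair (f2.comp (f1.comp f1))
        (Primrec.pair (f1.comp (f2.comp f1)) (Primrec.pair (f2.comp (f2.comp f1)) f2)))).to_comp
    exact (hc.comp h2).of_eq fun q => by
      simp only [relNat]
      congr
  have h2 : Nat.Partrec (fun q : ℕ => Part.some (Encodable.encode (decide (relNat R q)))) := by
    have h3 : Computable (fun q : ℕ => Encodable.encode (decide (relNat R q))) :=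
      Computable.encode.comp h1
    exact Partrec.nat_iff.1 h3.partrec
  obtain ⟨cd, hcd⟩ := Code.exists_code.1 h2
  refine ⟨Encodable.encode cd, fun y a j c => ?_⟩
  have hval : ∀ d, relNat R (Nat.pair (Nat.pair (Nat.pair y a) (Nat.pair j c)) d) ↔
      R (y, a, j, c, d) := by
    intro d
    simp [relNat]
  have hW : ∀ t, Wst t (qcode (Encodable.encode cd) y a j c) = true ↔
      ∃ d < t, (0 : ℕ) ∈ Code.evaln t cd
        (Nat.pair (Nat.pair (Nat.pair y a) (Nat.pair j c)) d) := by
    intro t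
    unfold Wst qcode
    rw [List.any_eq_true]
    simp only [List.mem_range, decide_eq_true_eq, Nat.unpair_pair, Denumerable.ofNat_encode,
      Option.mem_def]
  constructor
  · intro h d
    by_contra hR'
    have hmem : (0 : ℕ) ∈ Code.eval cd (Nat.pair (Nat.pair (Nat.pair y a) (Nat.pair j c)) d) := by
      rw [hcd]
      have : decide (relNat R (Nat.pair (Nat.pair (Nat.pair y a) (Nat.pair j c)) d)) = false := by
        rw [decide_eq_false_iff_not, hval]
        exact hR'
      change (0 : ℕ) ∈ Part.some (Encodable.encode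
        (decide (relNat R (Nat.pair (Nat.pair (Nat.pair y a) (Nat.pair j c)) d))))
      rw [this]
      exact Part.mem_some_iff.2 rfl
    obtain ⟨k, hk⟩ := Code.evaln_complete.1 hmem
    have h1 := h (max k (d + 1))
    have h2 : Wst (max k (d + 1)) (qcode (Encodable.encode cd) y a j c) = true := by
      rw [hW]
      exact ⟨d, lt_of_lt_of_le (Nat.lt_succ_self d) (le_max_right _ _),
        Code.evaln_mono (le_max_left _ _) hk⟩
    rw [h1] at h2
    exact absurd h2 (by simp)
  · intro h t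
    by_contra h3
    rw [Bool.not_eq_false, hW] at h3
    obtain ⟨d, -, hd⟩ := h3
    have h4 := Code.evaln_sound hd
    rw [hcd, Part.mem_some_iff] at h4
    have : decide (relNat R (Nat.pair (Nat.pair (Nat.pair y a) (Nat.pair j c)) d)) = true := by
      rw [decide_eq_true_eq, hval]
      exact h d
    rw [this] at h4
    exact absurd h4 (by simp)

lemma oinf_iff {R : ℕ × ℕ × ℕ × ℕ × ℕ → Prop} {e : ℕ}
    (he : ∀ y a j c : ℕ, (∀ t, Wst t (qcode e y a j c) = false) ↔ ∀ d, R (y, a, j, c, d))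
    (y a j : ℕ) : Oinf e y a j = true ↔ ∃ c, ∀ d, R (y, a, j, c, d) := by
  classical
  unfold Oinf
  rw [decide_eq_true_eq]
  simp_rw [he]

/-- The claim is right. -/
def Good (e z : ℕ) : Prop := 0 < cSum z ∧ ∀ y ∈ cSet z, ∀ j, Oinf e y (cWit z y) j = true

lemma looks_limit (e z : ℕ) : ∀ᶠ v in atTop, (looks Oinf e v z = true ↔ Good e z) := by
  by_cases h : Good e z
  · filter_upwards [eventually_gt_atTop (cSum z)] with v hv
    rw [looks_iff]
    exact ⟨fun _ => h, fun _ => ⟨h.1, hv, fun y hy j _ => h.2 y hy j⟩⟩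
  · by_cases h0 : 0 < cSum z
    · have h1 : ∃ y ∈ cSet z, ∃ j, Oinf e y (cWit z y) j ≠ true := by
        by_contra h2
        push Not at h2
        exact h ⟨h0, h2⟩
      obtain ⟨y, hy, j, hj⟩ := h1
      filter_upwards [eventually_gt_atTop j] with v hv
      rw [looks_iff]
      exact ⟨fun h2 => absurd (h2.2.2 y hy j hv) hj, fun h2 => absurd h2 h⟩
    · refine Eventually.of_forall fun v => ?_
      rw [looks_iff]
      exact ⟨fun h2 => absurd h2.1 h0, fun h2 => absurd h2 h⟩

lemma cSum_eq (z : ℕ) : cSum z = ∑ y ∈ (cSet z).toFinset, y := by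
  have h := List.sum_toFinset (fun y : ℕ => y) (l := cSet z)
    ((dig_pairwise _).imp (fun h => ne_of_lt h))
  rw [h, List.map_id']
  rfl

lemma exists_code_set (F : Finset ℕ) : ∃ g : ℕ, ∀ y, y ∈ dig g ↔ y ∈ F := by
  classical
  induction F using Finset.induction_on with
  | empty => exact ⟨0, fun y => by simp [dig_zero]⟩
  | insert a F _ ih =>
    obtain ⟨g, hg⟩ := ih
    refine ⟨2 ^ a ||| g, fun y => ?_⟩
    rw [mem_dig, Nat.testBit_or, Nat.testBit_two_pow, Bool.or_eq_true, decide_eq_true_eq,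
      ← mem_dig, hg, Finset.mem_insert]
    constructor
    · rintro (h | h)
      · exact Or.inl h.symm
      · exact Or.inr h
    · rintro (h | h)
      · exact Or.inl h.symm
      · exact Or.inr h

section

variable {H : Set ℕ} {e : ℕ}

lemma exists_good (hH : H.Infinite) (hpos : ∀ y ∈ H, 0 < y)
    (he : ∀ y, y ∈ H ↔ ∃ a, ∀ j, Oinf e y a j = true) (N : ℕ) : ∃ z, Good e z ∧ N ≤ cVal z := by
  classical
  obtain ⟨F, hF, hFH, -, hFd⟩ := far_sum hH ∅ N
  obtain ⟨g, hg⟩ := exists_code_set F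
  have hw : ∀ y ∈ F, ∃ a, ∀ j, Oinf e y a j = true := fun y hy => (he y).1 (hFH hy)
  choose! wit hwit using hw
  obtain ⟨M, hM⟩ : ∃ M, ∀ y ∈ F, y < M := ⟨F.sup id + 1, fun y hy =>
    Nat.lt_succ_of_le (Finset.le_sup (f := id) hy)⟩
  set z := Nat.pair g (Encodable.encode ((List.range M).map wit)) with hz
  have hset : cSet z = dig g := by
    unfold cSet
    rw [hz, Nat.unpair_pair]
  have hwz : ∀ y ∈ F, cWit z y = wit y := by
    intro y hy
    unfold cWit
    rw [hz, Nat.unpair_pair]
    simp only [Denumerable.ofNat_encode]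
    rw [List.getD_eq_getElem?_getD, List.getElem?_map, List.getElem?_range (hM y hy)]
    rfl
  have hsum : cSum z = ∑ y ∈ F, y := by
    rw [cSum_eq, hset]
    congr 1
    ext y
    rw [List.mem_toFinset, hg]
  have hpos' : 0 < cSum z := by
    rw [hsum]
    exact sum_pos' hpos hF hFH
  refine ⟨z, ⟨hpos', ?_⟩, ?_⟩
  · intro y hy j
    rw [hset, hg] at hy
    rw [hwz y hy]
    exact hwit y hy j
  · unfold cVal
    rw [← hsum] at hFd
    obtain ⟨d, r, h⟩ := List.exists_cons_of_ne_nil (dig_ne_nil hpos'.ne')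
    rw [h]
    exact le_of_mem_dig hFd (by rw [h]; exact List.mem_cons_self)

/-- For large `v` the index `e` chooses a good claim below a fixed bound. -/
lemma exists_bound (hH : H.Infinite) (hpos : ∀ y ∈ H, 0 < y)
    (he : ∀ y, y ∈ H ↔ ∃ a, ∀ j, Oinf e y a j = true) :
    ∃ Z, ∀ᶠ v in atTop, ∃ z < Z, Good e z ∧
      Bf Oinf (cVal z) v = !Bf Oinf (cVal z) (cTop z) := by
  classical
  have hinf : (cVal '' {z | Good e z}).Infinite := by
    rw [Set.infinite_iff_exists_gt]
    intro N
    obtain ⟨z, hz, hN⟩ := exists_good hH hpos he (N + 1)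
    exact ⟨cVal z, ⟨z, hz, rfl⟩, hN⟩
  obtain ⟨V, hVs, hVc⟩ := hinf.exists_subset_card_eq (e + 1)
  have hZ : ∀ᶠ Z in atTop, ∀ s ∈ V, ∃ z < Z, Good e z ∧ cVal z = s := by
    rw [eventually_all_finset]
    intro s hs
    obtain ⟨z, hz, hzs⟩ := hVs hs
    filter_upwards [eventually_gt_atTop z] with Z hZ
    exact ⟨z, hZ, hz, hzs⟩
  obtain ⟨Z, hZ⟩ := hZ.exists
  refine ⟨Z, ?_⟩
  have hlim : ∀ᶠ v in atTop, ∀ z < Z, (looks Oinf e v z = true ↔ Good e z) :=
    (eventually_all_finite (Set.finite_lt_nat Z)).2 fun z _ => looks_limit e z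
  filter_upwards [hlim, eventually_gt_atTop e, eventually_ge_atTop Z] with v hv hev hZv
  -- a free value
  have hfree : ∃ s ∈ V, s ∉ ((chosen Oinf v e).map cVal).toFinset := by
    by_contra h
    push Not at h
    have h1 : V ⊆ ((chosen Oinf v e).map cVal).toFinset := h
    have h2 := Finset.card_le_card h1
    have h3 := List.toFinset_card_le ((chosen Oinf v e).map cVal)
    have h4 := chosen_length Oinf v e
    rw [List.length_map] at h3
    omega
  obtain ⟨s, hs, hfree⟩ := hfree
  obtain ⟨z0, hz0Z, hz0, hz0s⟩ := hZ s hs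
  have hp : (looks Oinf e v z0 && (chosen Oinf v e).all
      fun z' => decide (cVal z' ≠ cVal z0)) = true := by
    rw [Bool.and_eq_true, List.all_eq_true]
    refine ⟨(hv z0 hz0Z).2 hz0, fun z' hz' => ?_⟩
    rw [decide_eq_true_eq]
    intro h
    apply hfree
    rw [List.mem_toFinset, List.mem_map]
    exact ⟨z', hz', h.trans hz0s⟩
  cases hn : nextZ Oinf v e (chosen Oinf v e) with
  | none =>
    exfalso
    unfold nextZ at hn
    rw [List.find?_range_eq_none] at hn
    have := hn z0 (by omega)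
    rw [hp] at this
    simp at this
  | some z =>
    have hzle : z ≤ z0 := by
      by_contra hlt
      push Not at hlt
      unfold nextZ at hn
      rw [List.find?_range_eq_some] at hn
      have := hn.2.2 z0 hlt
      rw [hp] at this
      simp at this
    have hzZ : z < Z := lt_of_le_of_lt hzle hz0Z
    have hgood : Good e z := (hv z hzZ).1 (nextZ_some hn).2.1
    have hmem : z ∈ chosen Oinf v (e + 1) := by
      rw [chosen, List.mem_append, hn]
      left
      simp
    exact ⟨z, hzZ, hgood, bf_rec (pick_of_mem (by omega) hmem)⟩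

/-- No set with a definition by the oracle has all finite sums of one colour. -/
theorem no_solution (hH : H.Infinite) (hpos : ∀ y ∈ H, 0 < y)
    (he : ∀ y, y ∈ H ↔ ∃ a, ∀ j, Oinf e y a j = true) :
    ¬ ∃ i : ℕ, ∀ F : Finset ℕ, F.Nonempty → (F : Set ℕ) ⊆ H → colour (∑ y ∈ F, y) = i := by
  classical
  rintro ⟨i, hom⟩
  obtain ⟨Z, hZ⟩ := exists_bound hH hpos he
  obtain ⟨V, hV⟩ := eventually_atTop.1 hZ
  -- the finite set of the elements of the good claims
  set U : Finset ℕ := (Finset.range Z).biUnion fun z => (cSet z).toFinset with hU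
  set N := V + ∑ z ∈ Finset.range Z, cSum z with hN
  obtain ⟨F, hF, hFH, hFU, hFd⟩ := far_sum hH U N
  set m := ∑ y ∈ F, y with hm
  have hmpos : 0 < m := sum_pos' hpos hF hFH
  have hlast : V ≤ (dig m).getLastD 0 := by
    rw [← getLast_eq (dig_ne_nil hmpos.ne')]
    have := le_of_mem_dig hFd (List.getLast_mem (dig_ne_nil hmpos.ne'))
    omega
  obtain ⟨z, hzZ, hgood, hbit⟩ := hV _ hlast
  have hsetH : (((cSet z).toFinset : Finset ℕ) : Set ℕ) ⊆ H := by
    intro y hy
    rw [Finset.mem_coe, List.mem_toFinset] at hy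
    exact (he y).2 ⟨_, hgood.2 y hy⟩
  have hne : (cSet z).toFinset.Nonempty := by
    rw [Finset.nonempty_iff_ne_empty]
    intro h
    have := hgood.1
    rw [cSum_eq, h] at this
    simp at this
  have hdis : Disjoint F (cSet z).toFinset := by
    apply hFU.mono_right
    rw [hU]
    exact Finset.subset_biUnion_of_mem (fun z => (cSet z).toFinset) (Finset.mem_range.2 hzZ)
  have hlt : ∑ y ∈ (cSet z).toFinset, y < 2 ^ N := by
    rw [← cSum_eq]
    have h1 : cSum z ≤ ∑ z ∈ Finset.range Z, cSum z :=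
      Finset.single_le_sum (f := cSum) (fun _ _ => Nat.zero_le _) (Finset.mem_range.2 hzZ)
    exact lt_of_le_of_lt (by omega) (Nat.lt_two_pow_self (n := N))
  have key := forcedH hH hpos hom hne hsetH hF hFH hdis hlt hFd
  rw [← cSum_eq] at key
  change Bf Oinf (cVal z) (cTop z) = Bf Oinf (cVal z) ((dig m).getLastD 0) at key
  rw [hbit] at key
  cases h : Bf Oinf (cVal z) (cTop z) <;> rw [h] at key <;> simp at key

end

/-- No infinite `Σ⁰₄` set has all finite sums of one colour. -/
theorem no_sigma_four (H : Set ℕ) (hH : H.Infinite) (hpos : ∀ y ∈ H, 0 < y)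
    (hR : ∃ R : ℕ × ℕ × ℕ × ℕ × ℕ → Prop, ComputablePred R ∧
      ∀ n, n ∈ H ↔ ∃ a, ∀ b, ∃ c, ∀ d, R (n, a, b, c, d)) :
    ¬ ∃ i : ℕ, ∀ F : Finset ℕ, F.Nonempty → (F : Set ℕ) ⊆ H → colour (∑ y ∈ F, y) = i := by
  obtain ⟨R, hRc, hR⟩ := hR
  obtain ⟨e, he⟩ := exists_index hRc
  apply no_solution (e := e) hH hpos
  intro y
  rw [hR]
  simp_rw [oinf_iff he]

end Pool.Agent.Helper32.HT
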