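import Pool.Agent.Helper32.HT.Diag
import Pool.Agent.Helper32.HT.Comp

/-!
# Bits separating two disjoint `Σ⁰₄` sets, and typical blocks
-/

set_option autoImplicit false

namespace Pool.Agent.Helper32.HT

open Filter

/-- The first witness for the index `e` at `n` which looks right at `v`. -/
def wit (O : ℕ → ℕ → ℕ → ℕ → Bool) (e n v : ℕ) : ℕ :=
  ((List.range v).find? fun a => (List.range v).all fun j => O e n a j).getD v

/-- The bit at `v` for `n`: is the first witness for `eB` smaller than the first for `eA`? -/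
def Bc (eA eB : ℕ) (O : ℕ → ℕ → ℕ → ℕ → Bool) (n v : ℕ) : Bool :=
  decide (wit O eB n v < wit O eA n v)

/-- The letters for the row `n`. -/
def ellS (eA eB n a v b : ℕ) : Bool := Bc eA eB (Oap v b) n a

/-! ### limits -/

lemma wit_congr {O O' : ℕ → ℕ → ℕ → ℕ → Bool} {e n v : ℕ}
    (h : ∀ a < v, ∀ j < v, O e n a j = O' e n a j) : wit O e n v = wit O' e n v := by
  unfold wit
  rw [find_congr (p := fun a => (List.range v).all fun j => O e n a j)
    (q := fun a => (List.range v).all fun j => O' e n a j)]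
  intro a ha
  rw [List.mem_range] at ha
  rw [Bool.eq_iff_iff, List.all_eq_true, List.all_eq_true]
  constructor
  · intro h2 j hj
    rw [← h a ha j (List.mem_range.1 hj)]
    exact h2 j hj
  · intro h2 j hj
    rw [h a ha j (List.mem_range.1 hj)]
    exact h2 j hj

lemma ellS_limit (eA eB n a : ℕ) : ∃ v0, ∀ v ≥ v0, ∀ b,
    (∀ u < v, (∃ t, Wst t u = true) → Wst b u = true) →
      ellS eA eB n a v b = Bc eA eB Oinf n a := by
  have h1 : ∀ e, ∀ᶠ v in atTop, ∀ a' < a, ∀ j < a, ∀ b,
      (∀ u < v, (∃ t, Wst t u = true) → Wst b u = true) →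
        Oap v b e n a' j = Oinf e n a' j := by
    intro e
    refine (eventually_all_finite (Set.finite_lt_nat a)).2 fun a' _ => ?_
    refine (eventually_all_finite (Set.finite_lt_nat a)).2 fun j _ => ?_
    exact oap_limit e n a' j
  obtain ⟨v0, h⟩ := eventually_atTop.1 ((h1 eA).and (h1 eB))
  refine ⟨v0, fun v hv b hb => ?_⟩
  obtain ⟨hA, hB⟩ := h v hv
  unfold ellS Bc
  rw [wit_congr (fun a' ha' j hj => hA a' ha' j hj b hb),
    wit_congr (fun a' ha' j hj => hB a' ha' j hj b hb)]

/-- If there is a right witness, the first one is found in the limit. -/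
lemma wit_le {e n a : ℕ} (ha : ∀ j, Oinf e n a j = true) :
    ∀ᶠ v in atTop, wit Oinf e n v ≤ a := by
  filter_upwards [eventually_gt_atTop a] with v hv
  unfold wit
  cases h : (List.range v).find? fun a => (List.range v).all fun j => Oinf e n a j with
  | none =>
    exfalso
    rw [List.find?_range_eq_none] at h
    have := h a hv
    simp [ha] at this
  | some i =>
    rw [List.find?_range_eq_some] at h
    by_contra hlt
    push Not at hlt
    have := h.2.2 a hlt
    simp [ha] at this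

/-- If there is no right witness, the first witness tends to infinity. -/
lemma wit_gt {e n : ℕ} (h0 : ¬ ∃ a, ∀ j, Oinf e n a j = true) (K : ℕ) :
    ∀ᶠ v in atTop, K < wit Oinf e n v := by
  push Not at h0
  have h1 : ∀ᶠ v in atTop, ∀ a < K + 1, ∃ j < v, Oinf e n a j ≠ true := by
    refine (eventually_all_finite (Set.finite_lt_nat (K + 1))).2 fun a _ => ?_
    obtain ⟨j, hj⟩ := h0 a
    filter_upwards [eventually_gt_atTop j] with v hv
    exact ⟨j, hv, hj⟩
  filter_upwards [h1, eventually_gt_atTop K] with v hv hKv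
  unfold wit
  cases h : (List.range v).find? fun a => (List.range v).all fun j => Oinf e n a j with
  | none => exact hKv
  | some i =>
    rw [List.find?_range_eq_some] at h
    by_contra hlt
    push Not at hlt
    have hlt' : i ≤ K := hlt
    obtain ⟨j, hj, hj2⟩ := hv i (Nat.lt_succ_of_le hlt')
    have h3 := h.1
    rw [List.all_eq_true] at h3
    exact hj2 (h3 j (List.mem_range.2 hj))

lemma bc_limit_false {eA eB n : ℕ} (hA : ∃ a, ∀ j, Oinf eA n a j = true)
    (hB : ¬ ∃ a, ∀ j, Oinf eB n a j = true) : ∀ᶠ v in atTop, Bc eA eB Oinf n v = false := by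
  obtain ⟨a, ha⟩ := hA
  filter_upwards [wit_le ha, wit_gt hB a] with v h1 h2
  unfold Bc
  rw [decide_eq_false_iff_not]
  omega

lemma bc_limit_true {eA eB n : ℕ} (hA : ¬ ∃ a, ∀ j, Oinf eA n a j = true)
    (hB : ∃ a, ∀ j, Oinf eB n a j = true) : ∀ᶠ v in atTop, Bc eA eB Oinf n v = true := by
  obtain ⟨a, ha⟩ := hB
  filter_upwards [wit_le ha, wit_gt hA a] with v h1 h2
  unfold Bc
  rw [decide_eq_true_eq]
  omega

/-! ### typical blocks -/

/-- The bit read from a typical colour. -/
def dec (c : G × Fin 3) : Bool :=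
  decide (tau2 (0, false) (mul (mul (x true) x0i) c.1) = -c.2)

lemma dec_spec : ∀ (Q g : G) (T : Fin 3) (b : Bool),
    mul (mul (mul Q (x b)) x0i) g = g → T + tau2 Q g + T = T → dec (g, T) = b := by
  decide

/-- If the blocks `D`, `E` and `D ++ E`, for a far union `E` of two far blocks, have the same
colour, then the colour determines the bit at the last element of `D`. -/
theorem typical {W : ℕ → ℕ → Bool} {ell : ℕ → ℕ → ℕ → Bool}
    (hW : ∀ a b u, a ≤ b → W a u = true → W b u = true) (B : ℕ → Bool)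
    (R1 : ∀ a, ∃ v0, ∀ v ≥ v0, ∀ b, (∀ u < v, (∃ t, W t u = true) → W b u = true) →
      ell a v b = B a)
    {D : List ℕ} (hD : D ≠ []) {c0 : G × Fin 3} (hDc : cl W ell D = c0)
    (hE : ∀ N, ∃ E1 : List ℕ, E1 ≠ [] ∧ (∀ y ∈ E1, N ≤ y) ∧
      ∀ N', ∃ E2 : List ℕ, E2 ≠ [] ∧ (∀ y ∈ E2, N' ≤ y) ∧
        cl W ell (E1 ++ E2) = c0 ∧ cl W ell (D ++ (E1 ++ E2)) = c0) :
    dec c0 = B (D.getLast hD) := by
  obtain ⟨v, hv⟩ := R1 (D.getLast hD)
  set m := D.getLast hD with hm
  obtain ⟨N0, hN0⟩ := exists_settled hW (max v (m + 1))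
  set N := max N0 (max v (m + 1)) with hNdef
  have hNs : Settled W N (max v (m + 1)) := hN0.mono hW (le_max_left _ _)
  have hNle : max v (m + 1) ≤ N := le_max_right _ _
  obtain ⟨E1, hE1, hE1', hE⟩ := hE N
  obtain ⟨N1, hN1⟩ := exists_settled hW (E1.getLast hE1 + 1)
  set N' := max N1 (E1.getLast hE1 + 1) with hN'def
  have hN's : Settled W N' (E1.getLast hE1 + 1) := hN1.mono hW (le_max_left _ _)
  obtain ⟨E2, hE2, hE2', hc, hc'⟩ := hE N'
  have hsub : ∀ K, K ≤ max v (m + 1) → Settled W N K := fun K hK u hu => hNs u (hu.trans_le hK)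
  obtain ⟨Q, hQ⟩ := key (ell := ell) hW hD (B := B) (v0 := v) hv
    (hsub v (le_max_left _ _)) ((le_max_left _ _).trans hNle)
    (hsub _ (le_max_right _ _)) ((le_max_right _ _).trans hNle)
    hE1 hE1' hN's (le_max_right _ _) hE2 hE2'
  obtain ⟨g, T⟩ := c0
  rw [cl, Prod.mk.injEq] at hDc hc
  rw [hc', hDc.1, hDc.2, hc.1, hc.2, Prod.mk.injEq] at hQ
  exact dec_spec Q g T _ hQ.1.symm hQ.2.symm

/-! ### computability -/

lemma prim_ellS (eA eB : ℕ) :
    Primrec (fun p : ℕ × (ℕ × ℕ × ℕ) => ellS eA eB p.1 p.2.1 p.2.2.1 p.2.2.2) := by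
  have hw : ∀ e : ℕ, Primrec (fun p : ℕ × (ℕ × ℕ × ℕ) =>
      wit (Oap p.2.2.1 p.2.2.2) e p.1 p.2.1) := by
    intro e
    unfold wit
    refine Primrec.option_getD.comp (prim_find (Primrec.list_range.comp
      (Primrec.fst.comp Primrec.snd)) ?_) (Primrec.fst.comp Primrec.snd)
    refine Primrec₂.mk ?_
    refine prim_all (Primrec.list_range.comp (Primrec.fst.comp (Primrec.snd.comp Primrec.fst))) ?_
    refine Primrec₂.mk ?_
    have h := prim_Oap.comp (Primrec.pair
      (Primrec.snd.comp (Primrec.snd.comp (Primrec.fst.comp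
        (Primrec.fst (α := (ℕ × (ℕ × ℕ × ℕ)) × ℕ) (β := ℕ)))))
      (Primrec.pair (Primrec.const e) (Primrec.pair (Primrec.fst.comp (Primrec.fst.comp Primrec.fst))
        (Primrec.pair (Primrec.snd.comp Primrec.fst) Primrec.snd))))
    exact h
  unfold ellS Bc
  exact Primrec.nat_lt.decide.comp (hw eB) (hw eA)

/-- The colour of the number `c` in the row `n`. -/
def colS (eA eB n c : ℕ) : G × Fin 3 := cl Wst (ellS eA eB n) (dig c)

lemma prim_colS_aux (f : ℕ → List ℕ → G × Fin 3)
    (h : Primrec (fun p : ℕ × List ℕ => f p.1 p.2)) :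
    Primrec (fun p : ℕ × ℕ => f p.1 (dig p.2)) :=
  h.comp (Primrec.pair Primrec.fst (prim_dig.comp Primrec.snd))

lemma prim_colS (eA eB : ℕ) : Primrec (fun p : ℕ × ℕ => colS eA eB p.1 p.2) :=
  prim_colS_aux (fun n D => cl Wst (ellS eA eB n) D) (prim_cl (prim_ellS eA eB))

end Pool.Agent.Helper32.HT
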